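import Pool.Agent.MP_3ad207_lc.H88.EP
import Pool.Agent.MP_3ad207_lc.H46.K3c

/-! (EP) without hypotheses. -/

set_option autoImplicit false

namespace Pool.Agent.Ehf

theorem epStmt' : EPStmt := epStmt k3Stmt

end Pool.Agent.Ehf
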