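import Pool.Agent.MP_3ad207_lc.H88.StarE
import Pool.Agent.MP_3ad207_lc.H46.Spec5
import Pool.Agent.MP_3ad207_lc.H82.Tree

/-! The star case of WIDTH. -/

set_option autoImplicit false

namespace Pool.Agent.Ehf

namespace Star

variable {V : Type} {G : SimpleGraph V}

theorem nuLe_of_alpha {U A B K : Set V} {k : ℕ} (hK : AlphaLe G K k)
    (h : ∀ Y, Conn G Y → Y ⊆ U → Touch G Y A → Touch G Y B → ¬ Disjoint Y K) : NuLe G U A B k := by
  classical
  intro s hs hT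
  have ex : ∀ Y ∈ s, ∃ v, v ∈ Y ∧ v ∈ K := fun Y hY =>
    Set.not_disjoint_iff.1 (h Y (hs.1 Y hY) (hT Y hY).1 (hT Y hY).2.1 (hT Y hY).2.2)
  rcases s.eq_empty_or_nonempty with rfl | ⟨Y0, hY0⟩
  · simp
  have : Nonempty V := ⟨(ex Y0 hY0).choose⟩
  choose! f hf using ex
  rw [← Finset.card_image_of_injOn (f := f) fun Y hY Z hZ e => by
    by_contra hne
    exact (hs.2 Y hY Z hZ hne).ne (hf Y hY).1 (hf Z hZ).1 e]
  refine hK _ (fun v hv => ?_) fun a ha b hb e => ?_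
  · obtain ⟨Y, hY, rfl⟩ := Finset.mem_image.1 hv
    exact (hf Y hY).2
  · obtain ⟨Y, hY, rfl⟩ := Finset.mem_image.1 ha
    obtain ⟨Z, hZ, rfl⟩ := Finset.mem_image.1 hb
    exact (hs.2 Y hY Z hZ fun e' => e.ne (congrArg f e')).not_adj (hf Y hY).1 (hf Z hZ).1 e

theorem exists_D [Fintype V] {S I K : Set V} (h : Setup G S I) (x : V) {T : Finset V}
    (hT : ∀ t ∈ T, t ∈ S \ I) (cT : T.card ≤ 2) (hK : AlphaLe G K 4) :
    ∃ D : Finset V, D.card ≤ 15 ∧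
      ∀ p, p ∈ D ↔ p ∈ HH S I ∧ (p = x ∨ p ∈ T ∨ (∃ t ∈ T, G.Adj t p) ∨ p ∈ K) := by
  classical
  refine ⟨Finset.univ.filter fun p => p ∈ HH S I ∧ (p = x ∨ p ∈ T ∨ (∃ t ∈ T, G.Adj t p) ∨ p ∈ K),
    ?_, fun p => by simp⟩
  set N := T.biUnion fun t => Finset.univ.filter fun p => p ∈ HH S I ∧ G.Adj t p with hN
  set K1 := Finset.univ.filter fun p => p ∈ K ∧ p ∈ I with hK1
  set K2 := Finset.univ.filter fun p => p ∈ K ∧ p ∈ S with hK2
  have c1 : N.card ≤ T.card * 2 := Finset.card_biUnion_le_card_mul _ _ _ fun t ht => by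
    obtain ⟨a, b, -, -, -, -, -, h6⟩ := h.white_nbrs (hT t ht)
    refine (Finset.card_le_card (t := {a, b}) fun p hp => ?_).trans Finset.card_le_two
    have := (Finset.mem_filter.1 hp).2
    simpa using h6 p this.1 this.2
  have c2 : K1.card ≤ 4 := hK _ (fun p hp => (Finset.mem_filter.1 hp).2.1) fun a ha b hb =>
    h.stI a (Finset.mem_filter.1 ha).2.2 b (Finset.mem_filter.1 hb).2.2
  have c3 : K2.card ≤ 4 := hK _ (fun p hp => (Finset.mem_filter.1 hp).2.1) fun a ha b hb =>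
    h.stS a (Finset.mem_filter.1 ha).2.2 b (Finset.mem_filter.1 hb).2.2
  refine (Finset.card_le_card (t := insert x (T ∪ N ∪ (K1 ∪ K2))) fun p hp => ?_).trans ?_
  · obtain ⟨h1, h2⟩ := (Finset.mem_filter.1 hp).2
    simp only [hN, hK1, hK2, Finset.mem_insert, Finset.mem_union, Finset.mem_biUnion,
      Finset.mem_filter, Finset.mem_univ, true_and]
    rcases h2 with h2 | h2 | ⟨t, ht, e⟩ | h2
    · exact Or.inl h2
    · exact Or.inr (Or.inl (Or.inl h2))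
    · exact Or.inr (Or.inl (Or.inr ⟨t, ht, h1, e⟩))
    · exact Or.inr (Or.inr (h1.imp (fun a => ⟨h2, a.1⟩) fun a => ⟨h2, a.1⟩))
  · have := Finset.card_insert_le x (T ∪ N ∪ (K1 ∪ K2))
    have := Finset.card_union_le (T ∪ N) (K1 ∪ K2)
    have := Finset.card_union_le T N
    have := Finset.card_union_le K1 K2
    omega

end Star

open _root_.Pool.Agent.Ehf.Star in
theorem starStmt : StarStmt := by
  refine ⟨fun m => nSplit (2 * (m + 15)) + nSee (m + 15), 15, 4, ?_⟩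
  intro V _ G S I h m M x w hx hM hinj hN
  classical
  have xH := black_mem_HH hx
  have wW : ∀ t ∈ M.image w, t ∈ S \ I ∧ G.Adj x t := fun t ht => by
    obtain ⟨p, hp, rfl⟩ := Finset.mem_image.1 ht
    exact ⟨(hM p hp).1, (hM p hp).2.1⟩
  have C : Ctr G x (M.image w) := ⟨h.ehf, fun t ht => (wW t ht).2,
    fun a ha b hb => h.white_not_adj (wW a ha).1 (wW b hb).1⟩
  obtain ⟨T, K, hT, cT, hK, A0, hA0, B0, hB0, cA0, cB0, ap⟩ := split_apart C (m := m + 15)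
    (by rw [Finset.card_image_of_injOn hinj]; exact hN)
  obtain ⟨D, cD, hD⟩ := exists_D h x (fun t ht => (wW t (hT ht)).1) cT hK
  set U := {v | v ∈ Out G x ∧ (∀ w ∈ T, ¬ G.Adj w v) ∧ v ∉ K} with hU
  have xD : x ∈ D := (hD x).2 ⟨xH, Or.inl rfl⟩
  have hCU : HC G S I D ⊆ U := fun a ha =>
    ⟨⟨fun e => ha.2.1 (e ▸ xD), fun e => ha.2.2 x xD hx e.symm⟩,
      fun t ht e => ha.2.1 ((hD a).2 ⟨ha.1, Or.inr (Or.inr (Or.inl ⟨t, ht, e⟩))⟩),
      fun e => ha.2.1 ((hD a).2 ⟨ha.1, Or.inr (Or.inr (Or.inr e))⟩)⟩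
  let ok : V → Prop := fun p => ∀ d ∈ D, d ∉ comp G (HH S I \ {x}) (w p)
  have side : ∀ F ⊆ M.image w, m + 15 ≤ F.card → m ≤ (M.filter fun p => w p ∈ F ∧ ok p).card := by
    intro F hF cF
    have c1 : (D.biUnion fun d => M.filter fun p => d ∈ comp G (HH S I \ {x}) (w p)).card ≤
        D.card * 1 := Finset.card_biUnion_le_card_mul _ _ _ fun d _ =>
      Finset.card_le_one.2 fun a ha b hb => by
        obtain ⟨a1, a2⟩ := Finset.mem_filter.1 ha
        obtain ⟨b1, b2⟩ := Finset.mem_filter.1 hb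
        exact hinj a1 b1 (h.nbr_eq_of_mem_comp xH (hM a a1).2.1 (hM b b1).2.1 a2 b2)
    have c2 : F ⊆ ((M.filter fun p => w p ∈ F ∧ ok p) ∪
        D.biUnion fun d => M.filter fun p => d ∈ comp G (HH S I \ {x}) (w p)).image w := by
      intro t ht
      obtain ⟨p, hp, rfl⟩ := Finset.mem_image.1 (hF ht)
      refine Finset.mem_image_of_mem _ (Finset.mem_union.2 ?_)
      by_cases a : ok p
      · exact Or.inl (Finset.mem_filter.2 ⟨hp, ht, a⟩)
      · simp only [ok, not_forall, not_not] at a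
        obtain ⟨d, d1, d2⟩ := a
        exact Or.inr (Finset.mem_biUnion.2 ⟨d, d1, Finset.mem_filter.2 ⟨hp, d2⟩⟩)
    have c3 := ((Finset.card_le_card c2).trans Finset.card_image_le).trans (Finset.card_union_le _ _)
    omega
  have reach : ∀ p ∈ M, ok p → ∃ b ∈ HC G S I D, Sees G (w p) (comp G U b) ∧
      (p = b ∨ (p = w p ∧ G.Adj p b)) := by
    intro p hp hok
    obtain ⟨w1, w2, w3⟩ := hM p hp
    have wH := white_mem_HH w1
    have wX : w p ∈ comp G (HH S I \ {x}) (w p) := mem_comp_self w3.1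
    have key : ∀ q ∈ comp G (HH S I \ {x}) (w p), q ≠ w p → q ∈ HC G S I D := fun q hq hne =>
      ⟨(comp_subset _ _ hq).1, fun e => hok q e hq, fun y hy yb e => by
        by_cases a : y = x
        · exact hne (h.eq_of_adj_of_mem_comp xH w2 (a ▸ e.symm) hq)
        · exact hok y hy (mem_comp_of_adj hq e ⟨black_mem_HH yb, a⟩)⟩
    by_cases e : p = w p
    · obtain ⟨b, b1, b2, b3, -⟩ := h.white_other w1 xH w2.symm
      have hb := key b (mem_comp_of_adj wX b3 ⟨black_mem_HH b2, b1.symm⟩) b3.ne'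
      exact ⟨b, hb, ⟨b, mem_comp_self (hCU hb), b3⟩, Or.inr ⟨e, by rw [e]; exact b3⟩⟩
    · have pH := (comp_subset _ _ w3).1
      have sub := h.hseg_subset (conn_comp w3.1) ((comp_subset _ _).trans Set.sdiff_subset) wX w3
      exact ⟨p, key p w3 e, (h.sees_hseg_diff_left wH pH (Ne.symm e)).mono
        ((h.conn_hseg_diff_left wH pH (Ne.symm e)).subset_comp_of_mem
          (fun q hq => hCU (key q (sub hq.1) hq.2)) ⟨h.right_mem_hseg wH pH, e⟩), Or.inl rfl⟩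
  set MA := M.filter fun p => w p ∈ A0 ∧ ok p with hMA
  set MB := M.filter fun p => w p ∈ B0 ∧ ok p with hMB
  set A := {a | a ∈ HC G S I D ∧ ∀ q ∈ MB, ¬ Sees G (w q) (comp G U a)} with hA
  have rA : ∀ p ∈ MA, ∃ b ∈ A, p = b ∨ (p = w p ∧ G.Adj p b) := fun p hp => by
    obtain ⟨p1, p2, p3⟩ := Finset.mem_filter.1 hp
    obtain ⟨b, b1, b2, b3⟩ := reach p p1 p3
    exact ⟨b, ⟨b1, fun q hq => ap _ (conn_comp (hCU b1)) (comp_subset _ _) _ p2 _
      (Finset.mem_filter.1 hq).2.1 b2⟩, b3⟩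
  have rB : ∀ p ∈ MB, ∃ b ∈ HC G S I D \ A, p = b ∨ (p = w p ∧ G.Adj p b) := fun p hp => by
    obtain ⟨p1, p2, p3⟩ := Finset.mem_filter.1 hp
    obtain ⟨b, b1, b2, b3⟩ := reach p p1 p3
    exact ⟨b, ⟨b1, fun e => e.2 p hp b2⟩, b3⟩
  have fs : ∀ (X : Set V), ∀ p ∈ M, (∃ b ∈ X, p = b ∨ (p = w p ∧ G.Adj p b)) → ForSide G S I X p := by
    rintro X p hp ⟨b, b1, rfl | ⟨b2, b3⟩⟩
    · exact Or.inl b1
    · exact Or.inr ⟨b2 ▸ (hM p hp).1, b, b1, b3⟩
  have dif : ∀ a ∈ A, ∀ b ∈ HC G S I D \ A, b ∉ cN G (comp G U a) := fun a ha b hb e =>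
    hb.2 ⟨hb.1, by rw [comp_eq_of_mem (mem_comp_of_cN (hCU hb.1) e)]; exact ha.2⟩
  have lnk : ∀ Y : Set V, Y ⊆ (HH S I ∪ {z | Sees G z (D : Set V)})ᶜ → Disjoint Y K → Y ⊆ U := by
    intro Y hY hd v hv
    have := hY hv
    rw [Set.mem_compl_iff, Set.mem_union, not_or] at this
    exact ⟨⟨fun e => this.1 (e ▸ xH), fun e => this.2 ⟨x, xD, e.symm⟩⟩, fun t ht e =>
      this.2 ⟨t, (hD t).2 ⟨white_mem_HH (wW t (hT ht)).1, Or.inr (Or.inl ht)⟩, e.symm⟩,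
      Set.disjoint_left.1 hd hv⟩
  have inc : ∀ Y : Set V, Conn G Y → Y ⊆ U → ∀ a ∈ HC G S I D, a ∈ cN G Y → Y ⊆ comp G U a :=
    fun Y cY sY a ha e => cY.subset_comp sY (touch_iff.2 ⟨a, mem_comp_self (hCU ha), e⟩).symm
  have ws : ∀ Y : Set V, Y ⊆ (HH S I ∪ {z | Sees G z (D : Set V)})ᶜ → ∀ p ∈ M, p = w p →
      p ∈ cN G Y → Sees G (w p) Y := fun Y hY p hp e e' =>
    e ▸ e'.resolve_left fun a => hY a (Or.inl (comp_subset _ _ (hM p hp).2.2).1)
  refine ⟨D, MA, MB, A, HC G S I D \ A, cD, Finset.filter_subset _ _, Finset.filter_subset _ _,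
    side A0 hA0 cA0, side B0 hB0 cB0, fun p hp => ((hD p).1 hp).1,
    Set.union_sdiff_cancel fun a ha => ha.1, ?_,
    fun p hp => fs _ p (Finset.mem_filter.1 hp).1 (rA p hp),
    fun p hp => fs _ p (Finset.mem_filter.1 hp).1 (rB p hp),
    nuLe_of_alpha hK fun Y cY sY t1 t2 hd => ?_, nuLe_of_alpha hK fun Y cY sY t1 t2 hd => ?_⟩
  · intro a ha b hb
    have h1 := dif a ha b hb
    have h2 : a ∈ comp G U a := mem_comp_self (hCU ha.1)
    exact ⟨fun e => h1 (Or.inl (e ▸ h2)), fun e => h1 (Or.inr ⟨a, h2, e.symm⟩)⟩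
  · obtain ⟨a, ha, ea⟩ := touch_iff.1 t1.symm
    obtain ⟨z, hz, ez⟩ := touch_iff.1 t2.symm
    have s := inc Y cY (lnk Y sY hd) a ha.1 ea
    rcases hz with hz | hz
    · exact dif a ha z hz (cN_mono s ez)
    · obtain ⟨b, b1, rfl | b2⟩ := rB z hz
      · exact dif a ha z b1 (cN_mono s ez)
      · exact ha.2 z hz ((ws Y sY z (Finset.mem_filter.1 hz).1 b2.1 ez).mono s)
  · obtain ⟨b, hb, eb⟩ := touch_iff.1 t1.symm
    obtain ⟨z, hz, ez⟩ := touch_iff.1 t2.symm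
    have key : ∀ a ∈ A, a ∉ cN G Y := fun a ha ea =>
      dif a ha b hb (cN_mono (inc Y cY (lnk Y sY hd) a ha.1 ea) eb)
    rcases hz with hz | hz
    · exact key z hz ez
    · obtain ⟨a, a1, rfl | a2⟩ := rA z hz
      · exact key z a1 ez
      · refine hb.2 ⟨hb.1, fun q hq => ap _ (conn_comp (hCU hb.1)) (comp_subset _ _) _
          (Finset.mem_filter.1 hz).2.1 _ (Finset.mem_filter.1 hq).2.1 ?_⟩
        exact (ws Y sY z (Finset.mem_filter.1 hz).1 a2.1 ez).mono (inc Y cY (lnk Y sY hd) b hb.1 eb)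

end Pool.Agent.Ehf
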