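import Pool.Agent.MP_3ad207_lc.H41.T1
import Pool.Agent.MP_3ad207_lc.H1.Cover

/-! (EP) boundedly many anticomplete links are killed by a canonical set. -/

set_option autoImplicit false

namespace Pool.Agent.Ehf

namespace EP

variable {V : Type} {G : SimpleGraph V}

/-- the transversal lemma for one graph -/
def TRf (G : SimpleGraph V) (L : ℕ → ℕ) : Prop :=
  ∀ (κ ι : Type) [Nonempty ι] (K : Finset κ) (T : κ → Finset ι) (F : κ → ι → Set V),
    (∀ k ∈ K, AFam G (T k) (F k) ∧ L K.card ≤ (T k).card) →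
    ∃ c : κ → ι, (∀ k ∈ K, c k ∈ T k) ∧ AFam G K fun k => F k (c k)

/-- the diagonal lemma for one graph -/
def DIf (G : SimpleGraph V) (N : ℕ → ℕ) : Prop :=
  ∀ (ι : Type) (s : Finset ι) (E F : ι → Set V) (t : ℕ), AFam G s E → AFam G s F →
    N t ≤ s.card → ∃ s' ⊆ s, s'.card = t ∧ ∀ i ∈ s', ∀ j ∈ s', i ≠ j → Anti G (E i) (F j)

/-- the cover lemma for one graph -/
def COf {S : Set V} (C : CanSys G S) (f : ℕ → ℕ) : Prop :=
  ∀ (X Z : Set V) (k : ℕ), AlphaLe G X k → TriFree G Z → Disjoint X Z →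
    ∃ W, C.Can (f k) W ∧ X ⊆ W ∧ Disjoint W Z

/-- `y` touches `s` pairwise anticomplete connected sets that avoid `W` and touch `A` -/
def Tails (G : SimpleGraph V) (W A : Set V) (y : V) (s : ℕ) : Prop :=
  ∃ T : Finset (Set V), AFam G T id ∧ s ≤ T.card ∧ ∀ Y ∈ T, Y ⊆ Wᶜ ∧ Touch G Y A ∧ y ∈ cN G Y

theorem Tails.mono {W W' A : Set V} {y : V} {s : ℕ} (h : Tails G W A y s) (hW : W' ⊆ W) :
    Tails G W' A y s := by
  obtain ⟨T, h1, h2, h3⟩ := h
  exact ⟨T, h1, h2, fun Y hY => ⟨(h3 Y hY).1.trans (Set.compl_subset_compl.2 hW), (h3 Y hY).2⟩⟩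

theorem tails_of_fam {ι : Type} {I : Finset ι} {F : ι → Set V} {W A : Set V} {y : V} {s : ℕ}
    (hF : AFam G I F) (hs : s ≤ I.card)
    (h : ∀ i ∈ I, F i ⊆ Wᶜ ∧ Touch G (F i) A ∧ y ∈ cN G (F i)) : Tails G W A y s := by
  classical
  refine ⟨I.image F, ⟨?_, ?_⟩, by rwa [Finset.card_image_of_injOn hF.injOn], ?_⟩
  · intro Y hY
    obtain ⟨i, hi, rfl⟩ := Finset.mem_image.1 hY
    exact hF.1 i hi
  · intro Y hY Z hZ hne
    obtain ⟨i, hi, rfl⟩ := Finset.mem_image.1 hY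
    obtain ⟨j, hj, rfl⟩ := Finset.mem_image.1 hZ
    exact hF.2 i hi j hj fun e => hne (e ▸ rfl)
  · intro Y hY
    obtain ⟨i, hi, rfl⟩ := Finset.mem_image.1 hY
    exact h i hi

/-- attaching one vertex to every member of an anticomplete family -/
theorem afam_ins {ι : Type} {I : Finset ι} {F : ι → Set V} {q : ι → V} (hF : AFam G I F)
    (hq : ∀ i ∈ I, q i ∈ cN G (F i))
    (h1 : ∀ i ∈ I, ∀ j ∈ I, i ≠ j → Anti G {q i} {q j})
    (h2 : ∀ i ∈ I, ∀ j ∈ I, i ≠ j → Anti G {q i} (F j)) :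
    AFam G I fun i => insert (q i) (F i) := by
  refine ⟨fun i hi => (hF.1 i hi).ins (hq i hi), fun i hi j hj hne => ?_⟩
  simp only [Set.insert_eq]
  exact ((h1 i hi j hj hne).union_right (h2 i hi j hj hne)).union_left
    ((h2 j hj i hi hne.symm).symm.union_right (hF.2 i hi j hj hne))

theorem afam_single {ι : Type} {I : Finset ι} {q : ι → V}
    (h : ∀ i ∈ I, ∀ j ∈ I, i ≠ j → q i ≠ q j ∧ ¬ G.Adj (q i) (q j)) :
    AFam G I fun i => ({q i} : Set V) :=
  ⟨fun _ _ => conn_singleton _, fun i hi j hj hne => anti_singleton_singleton.2 (h i hi j hj hne)⟩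

/-- discarding the members spoilt by boundedly many others -/
theorem discard {κ ι : Type} (K : Finset κ) (T : Finset ι) (r : κ → ι → Prop) (c : ℕ)
    (h : ∀ k ∈ K, ∀ T' ⊆ T, (∀ i ∈ T', r k i) → T'.card ≤ c) :
    ∃ T' ⊆ T, T.card ≤ T'.card + K.card * c ∧ ∀ i ∈ T', ∀ k ∈ K, ¬ r k i := by
  classical
  refine ⟨T.filter fun i => ∀ k ∈ K, ¬ r k i, Finset.filter_subset _ _, ?_,
    fun i hi => (Finset.mem_filter.1 hi).2⟩
  have hsub : T ⊆ (T.filter fun i => ∀ k ∈ K, ¬ r k i) ∪ K.biUnion fun k => T.filter (r k) := by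
    intro i hi
    by_cases c : ∀ k ∈ K, ¬ r k i
    · exact Finset.mem_union_left _ (Finset.mem_filter.2 ⟨hi, c⟩)
    · push Not at c
      obtain ⟨k, hk, hr⟩ := c
      exact Finset.mem_union_right _ (Finset.mem_biUnion.2 ⟨k, hk, Finset.mem_filter.2 ⟨hi, hr⟩⟩)
  refine (Finset.card_le_card hsub).trans ((Finset.card_union_le _ _).trans ?_)
  refine Nat.add_le_add_left (Finset.card_biUnion_le_card_mul _ _ _ fun k hk => ?_) _
  exact h k hk _ (Finset.filter_subset _ _) fun i hi => (Finset.mem_filter.1 hi).2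

/-- (a) crossing vertices -/
theorem alpha_cross {W A B : Set V} {k : ℕ} (h : NuLe G Wᶜ A B k) :
    AlphaLe G {x | x ∉ W ∧ x ∈ cN G A ∧ x ∈ cN G B} k := by
  intro s hs hst
  refine h.card_le (F := fun x => {x})
    (afam_single fun i hi j hj hne => ⟨hne, hst i hi j hj⟩) fun i hi => ?_
  obtain ⟨h1, h2, h3⟩ := hs hi
  exact ⟨Set.singleton_subset_iff.2 h1, touch_singleton_left.2 h2, touch_singleton_left.2 h3⟩

/-- (b) strong apexes -/
theorem alpha_apex (hG : EHF G) {L : ℕ → ℕ} (hL : TRf G L) {W A B : Set V} {k : ℕ}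
    (h : NuLe G Wᶜ A B k) :
    AlphaLe G {y | y ∉ W ∧ y ∉ A ∪ B ∧ y ∈ cN G B ∧ Tails G W A y (L (k + 1) + 2 * k)} k := by
  classical
  intro s hs hst
  by_contra hc
  obtain ⟨K, hKs, hK⟩ := Finset.exists_subset_card_eq (s := s) (n := k + 1) (by omega)
  have key : ∀ y ∈ K, ∃ T : Finset (Set V), AFam G T id ∧ L K.card ≤ T.card ∧
      ∀ Y ∈ T, (Y ⊆ Wᶜ ∧ Touch G Y A ∧ y ∈ cN G Y) ∧ ∀ z ∈ K, z ≠ y → z ∉ cN G Y := by
    intro y hy
    obtain ⟨-, -, -, T, hT, hc, hT'⟩ := hs (hKs hy)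
    obtain ⟨T', h1, h2, h3⟩ := discard (K.erase y) T (fun z Y => z ∈ cN G Y) 2 (by
      intro z hz T' hT'T hr
      by_contra hc'
      obtain ⟨a, b, c, ha, hb, hc, hab, hac, hbc⟩ := Finset.two_lt_card_iff.1 (not_le.1 hc')
      have hz' := Finset.mem_erase.1 hz
      exact hG.theta hz'.1 (hst z (hKs hz'.2) y (hKs hy)) (hT.1 a (hT'T ha)) (hT.1 b (hT'T hb))
        (hT.1 c (hT'T hc)) (hT.2 a (hT'T ha) b (hT'T hb) hab) (hT.2 a (hT'T ha) c (hT'T hc) hac)
        (hT.2 b (hT'T hb) c (hT'T hc) hbc) (hr a ha) (hT' a (hT'T ha)).2.2 (hr b hb)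
        (hT' b (hT'T hb)).2.2 (hr c hc) (hT' c (hT'T hc)).2.2)
    rw [Finset.card_erase_of_mem hy, hK] at h2
    refine ⟨T', hT.mono h1, ?_, fun Y hY => ⟨hT' Y (h1 hY), fun z hz hne =>
      h3 Y hY z (Finset.mem_erase.2 ⟨hne, hz⟩)⟩⟩
    rw [hK]
    simp only [Nat.add_sub_cancel] at h2
    omega
  choose! T hT using key
  obtain ⟨c, hc1, hc2⟩ := hL V (Set V) K T (fun _ Y => Y) fun y hy => ⟨(hT y hy).1, (hT y hy).2.1⟩
  have hfam : AFam G K fun y => insert y (c y) :=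
    afam_ins (q := fun y => y) hc2 (fun y hy => ((hT y hy).2.2 _ (hc1 y hy)).1.2.2)
      (fun i hi j hj hne => anti_singleton_singleton.2 ⟨hne, hst i (hKs hi) j (hKs hj)⟩)
      (fun i hi j hj hne => anti_iff.2 fun x hx => by
        rw [Set.mem_singleton_iff] at hx
        subst hx
        exact ((hT j hj).2.2 _ (hc1 j hj)).2 x hi hne)
  have := h.card_le hfam fun y hy => by
    obtain ⟨h1, -, h3, -⟩ := hs (hKs hy)
    obtain ⟨⟨h4, h5, -⟩, -⟩ := (hT y hy).2.2 _ (hc1 y hy)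
    exact ⟨Set.insert_subset h1 h4, h5.mono (Set.subset_insert _ _) le_rfl,
      touch_iff.2 ⟨y, Or.inl rfl, h3⟩⟩
  omega

theorem un {S : Set V} (C : CanSys G S) {a b c : ℕ} {X Y : Set V} (hX : C.Can a X)
    (hY : C.Can b Y) (ha : a < c) (hb : b < c) : C.Can c (X ∪ Y) :=
  C.mono (C.union_max hX hY) (by omega)

/-- (d) removing the closed neighbourhood of a vertex next to `B` from a killing set -/
theorem remove [Finite V] (hG : EHF G) {S : Set V} (C : CanSys G S) {L N f : ℕ → ℕ}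
    (hL : TRf G L) (hN : DIf G N) (hf : COf C f) {W X A B : Set V} {s n : ℕ} {y : V}
    (hAB : Anti G A B) (htri : TriFree G (A ∪ B)) (hWX : W ⊆ X) (hX : C.Can n X)
    (hyA : y ∉ cN G A) (hy : ¬ Tails G W A y s) (hnu : NuLe G (X ∪ cN G {y})ᶜ A B 0) :
    ∃ W', C.Can (n + (s + f (s + (L s + s) * N s) + 9)) W' ∧ Disjoint W' (A ∪ B) ∧
      NuLe G (X ∪ W')ᶜ A B 0 := by
  classical
  set Ω : Set V := (X ∪ cN G {y})ᶜ with hΩ
  -- components touching `A`
  let Cp : Set V → Prop := fun D => (∃ v ∈ Ω, D = comp G Ω v) ∧ Touch G D A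
  have cp_conn : ∀ D, Cp D → Conn G D := by
    rintro D ⟨⟨v, hv, rfl⟩, -⟩
    exact conn_comp hv
  have cp_sub : ∀ D, Cp D → D ⊆ Ω := by
    rintro D ⟨⟨v, hv, rfl⟩, -⟩
    exact comp_subset _ _
  have cp_anti : ∀ D, Cp D → ∀ D', Cp D' → D ≠ D' → Anti G D D' := by
    rintro D ⟨⟨v, hv, rfl⟩, -⟩ D' ⟨⟨v', hv', rfl⟩, -⟩ hne
    exact comp_anti_of_ne hne
  have cp_y : ∀ D, Cp D → Anti G D {y} := fun D hD =>
    anti_iff.2 fun x hx e => cp_sub D hD hx (Or.inr e)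
  have cp_W : ∀ D, Cp D → D ⊆ Wᶜ := fun D hD x hx e => cp_sub D hD hx (Or.inl (hWX e))
  have cp_B : ∀ D, Cp D → ¬ Touch G D B := fun D hD =>
    nuLe_zero.1 hnu D (cp_conn D hD) (cp_sub D hD) hD.2
  let ND : Set V → Set V := fun D => {q | q ∉ W ∧ G.Adj q y ∧ Sees G q D}
  let Wide : Set V → Prop := fun D => Cp D ∧ ¬ AlphaLe G (ND D) (L s + s)
  have : Fintype V := Fintype.ofFinite V
  have : Nonempty V := ⟨y⟩
  let 𝒟 : Finset (Set V) := Finset.univ.filter Wide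
  have mem𝒟 : ∀ D, D ∈ 𝒟 ↔ Wide D := fun D => by simp [𝒟]
  -- few wide components
  have hwide : 𝒟.card < s := by
    by_contra hc
    obtain ⟨K, hK𝒟, hK⟩ := Finset.exists_subset_card_eq (s := 𝒟) (n := s) (by omega)
    have hKc : ∀ D ∈ K, Cp D := fun D hD => ((mem𝒟 D).1 (hK𝒟 hD)).1
    have key : ∀ D ∈ K, ∃ Q : Finset V, Stable G (Q : Set V) ∧ L K.card ≤ Q.card ∧
        ∀ q ∈ Q, q ∈ ND D ∧ ∀ D' ∈ K, D' ≠ D → ¬ Sees G q D' := by
      intro D hD
      have h1 := ((mem𝒟 D).1 (hK𝒟 hD)).2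
      unfold AlphaLe at h1
      push Not at h1
      obtain ⟨Q, hQ, hst, hcard⟩ := h1
      obtain ⟨Q', h1, h2, h3⟩ := discard (K.erase D) Q (fun D' q => Sees G q D') 1 (by
        intro D' hD' Q' hQ' hr
        have hD'' := Finset.mem_erase.1 hD'
        refine Finset.card_le_one.2 fun a ha b hb => ?_
        by_contra hne
        exact hG.theta hne (hst a (hQ' ha) b (hQ' hb)) (cp_conn D (hKc D hD))
          (cp_conn D' (hKc D' hD''.2)) (conn_singleton y)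
          (cp_anti D (hKc D hD) D' (hKc D' hD''.2) hD''.1.symm) (cp_y D (hKc D hD))
          (cp_y D' (hKc D' hD''.2)) (Or.inr (hQ (hQ' ha)).2.2) (Or.inr (hQ (hQ' hb)).2.2)
          (Or.inr (hr a ha)) (Or.inr (hr b hb))
          (mem_cN_singleton.2 (Or.inr (hQ (hQ' ha)).2.1))
          (mem_cN_singleton.2 (Or.inr (hQ (hQ' hb)).2.1)))
      rw [Finset.card_erase_of_mem hD, hK] at h2
      refine ⟨Q', fun a ha b hb => hst a (h1 ha) b (h1 hb), ?_, fun q hq => ⟨hQ (h1 hq),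
        fun D' hD' hne => h3 q hq D' (Finset.mem_erase.2 ⟨hne, hD'⟩)⟩⟩
      rw [hK]
      omega
    choose! Q hQ using key
    obtain ⟨c, hc1, hc2⟩ := hL (Set V) V K Q (fun _ q => {q}) fun D hD =>
      ⟨afam_single fun i hi j hj hne => ⟨hne, (hQ D hD).1 i hi j hj⟩, (hQ D hD).2.1⟩
    have hcN : ∀ D ∈ K, c D ∈ ND D := fun D hD => ((hQ D hD).2.2 _ (hc1 D hD)).1
    have hfam : AFam G K fun D => insert (c D) D :=
      afam_ins (F := fun D => D)
        ⟨fun D hD => cp_conn D (hKc D hD), fun D hD D' hD' => cp_anti D (hKc D hD) D' (hKc D' hD')⟩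
        (fun D hD => Or.inr (hcN D hD).2.2) hc2.2
        (fun D hD D' hD' hne => anti_singleton_left.2
          ⟨fun e => (cp_y D' (hKc D' hD')).not_adj e rfl (hcN D hD).2.1,
            ((hQ D hD).2.2 _ (hc1 D hD)).2 D' hD' hne.symm⟩)
    exact hy (tails_of_fam hfam hK.ge fun D hD =>
      ⟨Set.insert_subset (hcN D hD).1 (cp_W D (hKc D hD)),
        (hKc D hD).2.mono (Set.subset_insert _ _) le_rfl,
        Or.inr ⟨c D, Or.inl rfl, (hcN D hD).2.1.symm⟩⟩)
  -- the remaining neighbours of `y`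
  let Z : Set V := {q | q ∉ W ∧ G.Adj q y ∧ q ∉ A ∪ B ∧
    (q ∈ cN G A ∨ ∃ D, Cp D ∧ ¬ Wide D ∧ Sees G q D)}
  have hZ : AlphaLe G Z (s + (L s + s) * N s) := by
    intro Q hQ hst
    have h1 : (Q.filter fun q => q ∈ cN G A).card < s := by
      by_contra hc
      refine hy (tails_of_fam (F := fun q => ({q} : Set V)) (afam_single fun i hi j hj hne =>
        ⟨hne, hst i (Finset.mem_filter.1 hi).1 j (Finset.mem_filter.1 hj).1⟩) (not_lt.1 hc)
        fun q hq => ?_)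
      have hq' := Finset.mem_filter.1 hq
      exact ⟨Set.singleton_subset_iff.2 (hQ hq'.1).1, touch_singleton_left.2 hq'.2,
        mem_cN_singleton.2 (Or.inr (hQ hq'.1).2.1.symm)⟩
    set Q2 := Q.filter fun q => ¬ q ∈ cN G A with hQ2
    have key : ∀ q ∈ Q2, ∃ D, Cp D ∧ ¬ Wide D ∧ Sees G q D := fun q hq =>
      (hQ (Finset.mem_filter.1 hq).1).2.2.2.resolve_left (Finset.mem_filter.1 hq).2
    choose! d hd using key
    have h2 : Q2.card ≤ (L s + s) * (Q2.image d).card := by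
      refine Finset.card_le_mul_card_image _ _ fun D hD => ?_
      obtain ⟨q, hq, rfl⟩ := Finset.mem_image.1 hD
      have hn : AlphaLe G (ND (d q)) (L s + s) := by
        by_contra hc
        exact (hd q hq).2.1 ⟨(hd q hq).1, hc⟩
      refine hn _ (fun a ha => ?_) fun a ha b hb => ?_
      · have ha' := Finset.mem_filter.1 ha
        have ha'' := hQ (Finset.mem_filter.1 ha'.1).1
        exact ⟨ha''.1, ha''.2.1, ha'.2 ▸ (hd a ha'.1).2.2⟩
      · exact hst a (Finset.mem_filter.1 (Finset.mem_filter.1 ha).1).1 b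
          (Finset.mem_filter.1 (Finset.mem_filter.1 hb).1).1
    have h3 : (Q2.image d).card < N s := by
      by_contra hc
      have sec : ∀ D ∈ Q2.image d, ∃ q, q ∈ Q2 ∧ d q = D := fun D hD => Finset.mem_image.1 hD
      choose! q hq using sec
      have hcp : ∀ D ∈ Q2.image d, Cp D := fun D hD => (hq D hD).2 ▸ (hd _ (hq D hD).1).1
      have hqQ : ∀ D ∈ Q2.image d, q D ∈ Q := fun D hD => (Finset.mem_filter.1 (hq D hD).1).1
      have hE : AFam G (Q2.image d) fun D => ({q D} : Set V) :=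
        afam_single fun D hD D' hD' hne =>
          ⟨fun e => hne ((hq D hD).2.symm.trans (e ▸ (hq D' hD').2)),
            hst _ (hqQ D hD) _ (hqQ D' hD')⟩
      have hF : AFam G (Q2.image d) fun D => D :=
        ⟨fun D hD => cp_conn D (hcp D hD), fun D hD D' hD' => cp_anti D (hcp D hD) D' (hcp D' hD')⟩
      obtain ⟨I, hI, hIc, hI'⟩ := hN (Set V) (Q2.image d) _ _ s hE hF (not_lt.1 hc)
      have hsee : ∀ D ∈ Q2.image d, Sees G (q D) D := fun D hD => by
        have := (hd _ (hq D hD).1).2.2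
        rwa [(hq D hD).2] at this
      have hfam : AFam G I fun D => insert (q D) D :=
        afam_ins (F := fun D => D) (hF.mono hI) (fun D hD => Or.inr (hsee D (hI hD)))
          (hE.mono hI).2 hI'
      exact hy (tails_of_fam hfam hIc.ge fun D hD =>
        ⟨Set.insert_subset (hQ (hqQ D (hI hD))).1 (cp_W D (hcp D (hI hD))),
          (hcp D (hI hD)).2.mono (Set.subset_insert _ _) le_rfl,
          Or.inr ⟨q D, Or.inl rfl, (hQ (hqQ D (hI hD))).2.1.symm⟩⟩)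
    have h4 := Finset.card_filter_add_card_filter_not (s := Q) (fun q => q ∈ cN G A)
    have h5 := Nat.mul_le_mul_left (L s + s) h3.le
    rw [← hQ2] at h4
    omega
  obtain ⟨W₁, hW₁, hZW, hW₁d⟩ := hf Z (A ∪ B) _ hZ htri
    (Set.disjoint_left.2 fun q hq => hq.2.2.1)
  have hNy : C.Can 1 (cN G {y}) := C.nbhd (C.single y)
  have hΩc : C.Can (n + 3) Ω := C.compl (un C hX hNy (by omega) (by omega) (c := n + 2))
  have hW₂ : C.Can (n + 7 + 𝒟.card) (⋃ D ∈ 𝒟, cN G D ∩ cN G {y}) := by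
    refine C.biUnion 𝒟 fun D hD => ?_
    obtain ⟨⟨⟨v, -, rfl⟩, -⟩, -⟩ := (mem𝒟 D).1 hD
    exact C.inter (C.nbhd (C.cmp v hΩc)) (C.mono hNy (by omega))
  refine ⟨(⋃ D ∈ 𝒟, cN G D ∩ cN G {y}) ∪ W₁, un C hW₂ hW₁ (by omega) (by omega), ?_, ?_⟩
  · refine Set.disjoint_union_left.2 ⟨Set.disjoint_left.2 fun q hq => ?_, hW₁d⟩
    obtain ⟨D, hD, hq1, hq2⟩ := Set.mem_iUnion₂.1 hq
    have hD' := ((mem𝒟 D).1 hD).1
    rintro (h | h)
    · rcases mem_cN_singleton.1 hq2 with e | e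
      · exact hyA (Or.inl (e ▸ h))
      · exact hyA (Or.inr ⟨q, h, e.symm⟩)
    · exact cp_B D hD' (touch_iff.2 ⟨q, h, hq1⟩).symm
  · refine NuLe.of_outside hAB (nuLe_zero.2 fun Y hY hYU hA hB => ?_)
    have hYX : ∀ x ∈ Y, x ∉ X := fun x hx e => (hYU hx).1 (Or.inl e)
    have hmeet : ∃ x ∈ Y, x ∈ cN G {y} := by
      by_contra hc
      push Not at hc
      refine nuLe_zero.1 hnu Y hY (fun x hx => ?_) hA hB
      rintro (e | e)
      · exact hYX x hx e
      · exact hc x hx e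
    obtain ⟨m, g, hg, gY, g0, gm, -, gQ⟩ := hY.exists_min_path (touch_iff.1 hA) hmeet
    have hq := hYU (gY m le_rfl)
    have hqW : g m ∉ W := fun e => hYX _ (gY m le_rfl) (hWX e)
    have hqZ : g m ∉ Z := fun e => hq.1 (Or.inr (Or.inr (hZW e)))
    rcases Nat.eq_zero_or_pos m with rfl | hm
    · rcases mem_cN_singleton.1 gm with e | e
      · exact hyA (e ▸ g0)
      · exact hqZ ⟨hqW, e, hq.2, Or.inl g0⟩
    · have hadj := hg.adj_pred hm le_rfl
      have hqy : G.Adj (g m) y := by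
        refine (mem_cN_singleton.1 gm).resolve_left fun e => ?_
        exact gQ (m - 1) (by omega) (mem_cN_singleton.2 (Or.inr (e ▸ hadj.symm)))
      have hseg : seg g 0 (m - 1) ⊆ Ω := seg_subset fun i _ hi => by
        rintro (e | e)
        · exact hYX _ (gY i (by omega)) e
        · exact gQ i (by omega) e
      have h0 : g 0 ∈ seg g 0 (m - 1) := apply_mem_seg le_rfl (Nat.zero_le _)
      have hsub := (hg.conn_seg (Nat.zero_le (m - 1)) (by omega)).subset_comp_of_mem hseg h0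
      have hcp : Cp (comp G Ω (g 0)) :=
        ⟨⟨g 0, hseg h0, rfl⟩, touch_iff.2 ⟨g 0, hsub h0, g0⟩⟩
      have hsee : Sees G (g m) (comp G Ω (g 0)) :=
        ⟨g (m - 1), hsub (apply_mem_seg (Nat.zero_le _) le_rfl), hadj⟩
      by_cases hw : Wide (comp G Ω (g 0))
      · exact hq.1 (Or.inr (Or.inl (Set.mem_iUnion₂.2 ⟨_, (mem𝒟 _).2 hw, Or.inr hsee, gm⟩)))
      · exact hqZ ⟨hqW, hqy, hq.2, Or.inr ⟨_, hcp, hw, hsee⟩⟩

theorem walk_shift {U : Set V} {f : ℕ → V} {n : ℕ} (h : WalkIn G U f n) (i : ℕ) (hi : i ≤ n) :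
    WalkIn G U (fun k => f (i + k)) (n - i) :=
  ⟨fun k hk => h.1 _ (by omega), fun k hk => h.2 (i + k) (by omega)⟩

theorem walk_mono {U : Set V} {f : ℕ → V} {n m : ℕ} (h : WalkIn G U f n) (hm : m ≤ n) :
    WalkIn G U f m := ⟨fun k hk => h.1 _ (by omega), fun k hk => h.2 k (by omega)⟩

/-- a shortest link and its geodesic interval -/
theorem shortest {U A B : Set V} (hcr : ∀ x ∈ U, x ∈ cN G A → x ∉ cN G B)
    (h : ¬ NuLe G U A B 0) :
    ∃ m y P, m ∈ U ∧ y ∈ U ∧ m ∈ cN G A ∧ y ∈ cN G B ∧ m ∉ A ∧ y ∉ B ∧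
      Disjoint (cN G (Geo G U m y \ ({m} ∪ {y}))) (A ∪ B) ∧
      Conn G P ∧ P ⊆ U ∧ m ∈ P ∧ y ∈ P ∧ P ⊆ Geo G U m y := by
  classical
  have hex : ∃ n, ∃ f : ℕ → V, WalkIn G U f n ∧ f 0 ∈ cN G A ∧ f n ∈ cN G B := by
    rw [nuLe_zero] at h
    push Not at h
    obtain ⟨Y, hY, hYU, hA, hB⟩ := h
    obtain ⟨n, f, hf, fY, f0, fn, -⟩ := hY.exists_touch_path hA hB
    exact ⟨n, f, ⟨fun i hi => hYU (fY i hi), fun i hi => hf.adj_succ hi⟩, f0, fn⟩
  obtain ⟨f, hf, f0, fn⟩ := Nat.find_spec hex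
  have hmin : ∀ (m : ℕ) (g : ℕ → V), WalkIn G U g m → g 0 ∈ cN G A → g m ∈ cN G B →
      Nat.find hex ≤ m := fun m g h1 h2 h3 => Nat.find_min' hex ⟨g, h1, h2, h3⟩
  generalize Nat.find hex = n at hf fn hmin
  have hn : 0 < n := by
    rcases Nat.eq_zero_or_pos n with rfl | h'
    · exact (hcr _ (hf.1 0 le_rfl) f0 fn).elim
    · exact h'
  have inner : ∀ (g : ℕ → V) (m : ℕ), WalkIn G U g m → g 0 ∈ cN G A → g m ∈ cN G B → m ≤ n →
      ∀ i, i ≤ m → (0 < i → g i ∉ cN G A) ∧ (i < m → g i ∉ cN G B) := by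
    intro g m h1 h2 h3 hm i hi
    refine ⟨fun h0 e => ?_, fun h0 e => ?_⟩
    · have := hmin _ _ (walk_shift h1 i hi) e (by
        show g (i + (m - i)) ∈ _
        rwa [show i + (m - i) = m by omega])
      omega
    · have := hmin _ _ (walk_mono h1 hi) h2 e
      omega
  refine ⟨f 0, f n, seg f 0 n, hf.1 0 hn.le, hf.1 n le_rfl, f0, fn, fun e => ?_, fun e => ?_, ?_,
    conn_seg_of_adj hn.le fun k _ hk => hf.2 k hk, seg_subset fun k _ hk => hf.1 k hk,
    apply_mem_seg le_rfl hn.le, apply_mem_seg hn.le le_rfl, seg_subset fun k _ hk => ?_⟩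
  · exact (inner f n hf f0 fn le_rfl 1 hn).1 one_pos (Or.inr ⟨f 0, e, (hf.2 0 hn).symm⟩)
  · refine (inner f n hf f0 fn le_rfl (n - 1) (by omega)).2 (by omega) (Or.inr ⟨f n, e, ?_⟩)
    have := hf.2 (n - 1) (by omega)
    rwa [show n - 1 + 1 = n by omega] at this
  · have hanti : Anti G (Geo G U (f 0) (f n) \ ({f 0} ∪ {f n})) (A ∪ B) := by
      refine anti_iff.2 ?_
      rintro x ⟨⟨m, g, hg, g0, gm, gmin, i, hi, rfl⟩, hx⟩
      have hm := gmin n f hf rfl rfl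
      have := inner g m hg (g0 ▸ f0) (gm ▸ fn) hm i hi
      rw [cN_union]
      rintro (e | e)
      · refine this.1 (Nat.pos_of_ne_zero ?_) e
        rintro rfl
        exact hx (Or.inl g0)
      · refine this.2 (lt_of_le_of_ne hi ?_) e
        rintro rfl
        exact hx (Or.inr gm)
    exact Set.disjoint_right.2 fun x hx => anti_iff.1 hanti.symm x hx
  · exact ⟨n, f, hf, rfl, rfl, fun m g hg g0 gm => hmin m g hg (g0 ▸ f0) (gm ▸ fn), k, hk, rfl⟩

/-- (c) killing all links by induction on their number -/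
theorem kill [Finite V] (hG : EHF G) {S : Set V} (C : CanSys G S) {L N f : ℕ → ℕ}
    (hL : TRf G L) (hN : DIf G N) (hf : COf C f) {W A B : Set V} {s : ℕ}
    (hAB : Anti G A B) (htri : TriFree G (A ∪ B))
    (hcr : ∀ x, x ∉ W → x ∈ cN G A → x ∉ cN G B)
    (hA : ∀ y, y ∉ W → y ∉ A ∪ B → y ∈ cN G B → ¬ Tails G W A y s)
    (hB : ∀ y, y ∉ W → y ∉ B ∪ A → y ∈ cN G A → ¬ Tails G W B y s) (j : ℕ) :
    ∀ (X : Set V) (n : ℕ), W ⊆ X → C.Can n X → NuLe G Xᶜ A B j →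
      ∃ W', C.Can (n + j * (2 * (s + f (s + (L s + s) * N s) + 9) + 20)) W' ∧
        Disjoint W' (A ∪ B) ∧ NuLe G (X ∪ W')ᶜ A B 0 := by
  classical
  induction j with
  | zero =>
    intro X n _ _ h
    exact ⟨∅, C.mono C.empty (Nat.zero_le _), Set.empty_disjoint _, by simpa using h⟩
  | succ j ih =>
    intro X n hWX hX h
    by_cases h0 : NuLe G Xᶜ A B 0
    · exact ⟨∅, C.mono C.empty (Nat.zero_le _), Set.empty_disjoint _, by simpa using h0⟩
    obtain ⟨m, y, P, mU, yU, mA, yB, mA', yB', hQ, hP, hPU, mP, yP, hPG⟩ :=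
      shortest (U := Xᶜ) (fun x hx => hcr x fun e => hx (hWX e)) h0
    set Q := Geo G Xᶜ m y \ ({m} ∪ {y}) with hQdef
    have mW : m ∉ W := fun e => mU (hWX e)
    have yW : y ∉ W := fun e => yU (hWX e)
    have mB : m ∉ cN G B := hcr m mW mA
    have yA : y ∉ cN G A := fun e => hcr y yW e yB
    have cQ : C.Can (n + 4) (cN G Q) :=
      C.nbhd (C.diff (C.geo m y (C.compl hX))
        (C.mono (C.union (C.single m) (C.single y)) (by omega)))
    have cm : C.Can 1 (cN G {m}) := C.nbhd (C.single m)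
    have cy : C.Can 1 (cN G {y}) := C.nbhd (C.single y)
    have cX : C.Can (n + 5) (X ∪ cN G Q) := un C hX cQ (by omega) (by omega)
    have cX' : C.Can (n + 7) (X ∪ cN G Q ∪ cN G {m} ∪ cN G {y}) :=
      un C (un C cX cm (by omega) (by omega) (c := n + 6)) cy (by omega) (by omega)
    have hnu : NuLe G (X ∪ cN G Q ∪ cN G {m} ∪ cN G {y})ᶜ A B j := by
      intro t ht hT
      have hanti : ∀ Y ∈ t, Anti G Y P := by
        intro Y hY
        refine anti_iff.2 fun x hx e => (hT Y hY).1 hx ?_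
        have hsub : P ⊆ Q ∪ {m} ∪ {y} := by
          intro z hz
          by_cases c1 : z = m
          · exact Or.inl (Or.inr c1)
          by_cases c2 : z = y
          · exact Or.inr c2
          · exact Or.inl (Or.inl ⟨hPG hz, fun e => e.elim c1 c2⟩)
        have := cN_mono hsub e
        rw [cN_union, cN_union] at this
        rcases this with (e | e) | e
        · exact Or.inl (Or.inl (Or.inr e))
        · exact Or.inl (Or.inr e)
        · exact Or.inr e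
      have hnot : P ∉ t := fun e => (hanti P e).notMem mP mP
      have := h (insert P t) ⟨?_, ?_⟩ ?_
      · rw [Finset.card_insert_of_notMem hnot] at this
        omega
      · intro Y hY
        rcases Finset.mem_insert.1 hY with rfl | hY
        · exact hP
        · exact ht.1 Y hY
      · intro Y hY Y' hY' hne
        rcases Finset.mem_insert.1 hY with e | hY <;> rcases Finset.mem_insert.1 hY' with e' | hY'
        · exact (hne (e.trans e'.symm)).elim
        · rw [e]; exact (hanti Y' hY').symm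
        · rw [e']; exact hanti Y hY
        · exact ht.2 Y hY Y' hY' hne
      · intro Y hY
        rcases Finset.mem_insert.1 hY with rfl | hY
        · exact ⟨hPU, touch_iff.2 ⟨m, mP, mA⟩, touch_iff.2 ⟨y, yP, yB⟩⟩
        · exact ⟨fun x hx e => (hT Y hY).1 hx (Or.inl (Or.inl (Or.inl e))), (hT Y hY).2⟩
    obtain ⟨W₁, c₁, d₁, n₁⟩ := ih (X ∪ cN G Q ∪ cN G {m} ∪ cN G {y}) _
      (fun x hx => Or.inl (Or.inl (Or.inl (hWX hx)))) cX' hnu
    rw [Nat.succ_mul]
    generalize j * (2 * (s + f (s + (L s + s) * N s) + 9) + 20) = g at c₁ ⊢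
    have cY : C.Can (n + g + 8) (X ∪ cN G Q ∪ W₁) := un C cX c₁ (by omega) (by omega)
    obtain ⟨W₂, c₂, d₂, n₂⟩ := remove hG C hL hN hf (W := W) (X := X ∪ cN G Q ∪ W₁ ∪ cN G {m})
      (s := s) (y := y) hAB htri (fun x hx => Or.inl (Or.inl (Or.inl (hWX hx))))
      (un C cY cm (by omega) (by omega) (c := n + g + 9)) yA
      (hA y yW (fun e => e.elim (fun e => yA (Or.inl e)) yB') yB)
      (n₁.mono (Set.compl_subset_compl.2 fun x hx => by
        simp only [Set.mem_union] at hx ⊢; tauto) le_rfl le_rfl le_rfl)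
    generalize hr : s + f (s + (L s + s) * N s) + 9 = r at c₂ ⊢
    obtain ⟨W₃, c₃, d₃, n₃⟩ := remove hG C hL hN hf (W := W) (X := X ∪ cN G Q ∪ W₁ ∪ W₂)
      (s := s) (y := m) hAB.symm (by rwa [Set.union_comm])
      (fun x hx => Or.inl (Or.inl (Or.inl (hWX hx))))
      (un C cY c₂ (by omega) (by omega) (c := n + g + r + 10)) mB
      (hB m mW (fun e => e.elim (fun e => mB (Or.inl e)) mA') mA)
      (n₂.symm.mono (Set.compl_subset_compl.2 fun x hx => by
        simp only [Set.mem_union] at hx ⊢; tauto) le_rfl le_rfl le_rfl)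
    rw [hr] at c₃
    refine ⟨cN G Q ∪ W₁ ∪ W₂ ∪ W₃, ?_, ?_, n₃.symm.mono (Set.compl_subset_compl.2 fun x hx => by
      simp only [Set.mem_union] at hx ⊢; tauto) le_rfl le_rfl le_rfl⟩
    · exact un C (un C (un C cQ c₁ (by omega) (by omega) (c := n + g + 8)) c₂ (by omega) (by omega)
        (c := n + g + r + 10)) c₃ (by omega) (by omega)
    · rw [Set.union_comm B A] at d₃
      exact Set.disjoint_union_left.2 ⟨Set.disjoint_union_left.2
        ⟨Set.disjoint_union_left.2 ⟨hQ, d₁⟩, d₂⟩, d₃⟩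

end EP

open EP in
theorem epStmt_of (h1 : TRStmt1) (h2 : DiagStmt) (h3 : CoverStmt) : EPStmt := by
  obtain ⟨L, hL⟩ := h1
  obtain ⟨N, hN⟩ := h2
  obtain ⟨f, hf⟩ := h3
  refine ⟨fun k => f k + 4 + k * (2 * ((L (k + 1) + 2 * k) + f ((L (k + 1) + 2 * k) +
    (L (L (k + 1) + 2 * k) + (L (k + 1) + 2 * k)) * N (L (k + 1) + 2 * k)) + 9) + 20), ?_⟩
  intro V _ G hG S C W₀ A B k n hW₀ _ hAB htri hnu
  have hL' : TRf G L := hL V G hG
  have hN' : DIf G N := hN V G hG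
  have hf' : COf C f := hf V G hG S C
  obtain ⟨Z₁, c₁, s₁, d₁⟩ := hf' _ (A ∪ B) k (alpha_cross hnu) htri (Set.disjoint_left.2 (by
    rintro x ⟨-, hxA, hxB⟩ (e | e)
    · exact anti_iff.1 hAB x e hxB
    · exact anti_iff.1 hAB.symm x e hxA))
  obtain ⟨Z₂, c₂, s₂, d₂⟩ := hf' _ (A ∪ B) k (alpha_apex hG hL' hnu) htri
    (Set.disjoint_left.2 fun x hx => hx.2.1)
  obtain ⟨Z₃, c₃, s₃, d₃⟩ := hf' _ (A ∪ B) k (alpha_apex hG hL' hnu.symm) htri
    (Set.disjoint_left.2 fun x hx e => hx.2.1 (Or.symm e))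
  have cZ : C.Can (f k + 2) (Z₁ ∪ Z₂ ∪ Z₃) :=
    un C (un C c₁ c₂ (by omega) (by omega) (c := f k + 1)) c₃ (by omega) (by omega)
  have cW : C.Can (n + f k + 3) (W₀ ∪ (Z₁ ∪ Z₂ ∪ Z₃)) := un C hW₀ cZ (by omega) (by omega)
  obtain ⟨W, cW', dW, nW⟩ := kill hG C hL' hN' hf' (W := W₀ ∪ (Z₁ ∪ Z₂ ∪ Z₃))
    (s := L (k + 1) + 2 * k) hAB htri
    (fun x hx hA hB => hx (Or.inr (Or.inl (Or.inl (s₁ ⟨fun e => hx (Or.inl e), hA, hB⟩)))))
    (fun y hy h1 h2 h3 => hy (Or.inr (Or.inl (Or.inr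
      (s₂ ⟨fun e => hy (Or.inl e), h1, h2, h3.mono Set.subset_union_left⟩)))))
    (fun y hy h1 h2 h3 => hy (Or.inr (Or.inr
      (s₃ ⟨fun e => hy (Or.inl e), h1, h2, h3.mono Set.subset_union_left⟩))))
    k _ _ le_rfl cW (hnu.mono (Set.compl_subset_compl.2 Set.subset_union_left) le_rfl le_rfl le_rfl)
  refine ⟨Z₁ ∪ Z₂ ∪ Z₃ ∪ W, un C cZ cW' (by dsimp only; omega) (by dsimp only; omega),
    Set.disjoint_union_left.2 ⟨Set.disjoint_union_left.2 ⟨Set.disjoint_union_left.2 ⟨d₁, d₂⟩, d₃⟩,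
      dW⟩, ?_⟩
  rwa [← Set.union_assoc]

theorem epStmt (h : K3Stmt) : EPStmt := epStmt_of (trStmt1 h) (diagStmt h) coverStmt

end Pool.Agent.Ehf
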