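import Pool.Agent.MP_3ad207_lc.H46.Spec

/-! Star case, part A: a centre with a stable set of neighbours; the lemmas W2, W4, CENTER, SEE. -/

set_option autoImplicit false

namespace Pool.Agent.Ehf.Star

variable {V : Type} {G : SimpleGraph V}

/-- a centre `c` and a stable set `M` of neighbours of `c` -/
structure Ctr (G : SimpleGraph V) (c : V) (M : Finset V) : Prop where
  ehf : EHF G
  adj : ∀ w ∈ M, G.Adj c w
  st : ∀ w ∈ M, ∀ w' ∈ M, ¬ G.Adj w w'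

/-- the vertices outside the closed neighbourhood of `c` -/
def Out (G : SimpleGraph V) (c : V) : Set V := {v | c ≠ v ∧ ¬ G.Adj c v}

/-- `Y` sees at most `r` members of `M` -/
def Lo (G : SimpleGraph V) (M : Finset V) (r : ℕ) (Y : Set V) : Prop :=
  ∃ E : Finset V, E.card ≤ r ∧ ∀ w ∈ M, Sees G w Y → w ∈ E

/-- `Y` misses at least `m` members of `M` -/
def Mi (G : SimpleGraph V) (M : Finset V) (m : ℕ) (Y : Set V) : Prop :=
  ∃ E ⊆ M, m ≤ E.card ∧ ∀ w ∈ E, ¬ Sees G w Y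

theorem Lo.mi {M : Finset V} {r m : ℕ} {Y : Set V} (h : Lo G M r Y) (hm : r + m ≤ M.card) :
    Mi G M m Y := by
  classical
  obtain ⟨E, h1, h2⟩ := h
  refine ⟨M \ E, Finset.sdiff_subset, ?_, fun w hw e => ?_⟩
  · have := Finset.le_card_sdiff E M
    omega
  · exact (Finset.mem_sdiff.1 hw).2 (h2 w (Finset.mem_sdiff.1 hw).1 e)

theorem Mi.drop {M : Finset V} {m k l : ℕ} {Y Y' : Set V} (h : Mi G M m Y) (F : Finset V)
    (hF : F.card ≤ k) (hl : l + k ≤ m) (h' : ∀ w ∈ M, ¬ Sees G w Y → Sees G w Y' → w ∈ F) :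
    Mi G M l Y' := by
  classical
  obtain ⟨E, h1, h2, h3⟩ := h
  refine ⟨E \ F, Finset.sdiff_subset.trans h1, ?_, fun w hw e => ?_⟩
  · have := Finset.le_card_sdiff F E
    omega
  · have hw' := Finset.mem_sdiff.1 hw
    exact hw'.2 (h' w (h1 hw'.1) (h3 w hw'.1) e)

theorem Mi.mono {M : Finset V} {m l : ℕ} {Y Y' : Set V} (h : Mi G M m Y) (hY : Y' ⊆ Y)
    (hl : l ≤ m) : Mi G M l Y' :=
  h.drop (k := 0) ∅ (by simp) hl fun _ _ h1 h2 => (h1 (h2.mono hY)).elim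

theorem exists_one {p : V → Prop} (h : ∀ a b, p a → p b → a = b) :
    ∃ E : Finset V, E.card ≤ 1 ∧ ∀ a, p a → a ∈ E := by
  by_cases c : ∃ a, p a
  · obtain ⟨a, ha⟩ := c
    exact ⟨{a}, by simp, fun b hb => Finset.mem_singleton.2 (h b a hb ha)⟩
  · exact ⟨∅, by simp, fun b hb => (c ⟨b, hb⟩).elim⟩

theorem exists_out {E F : Finset V} (h : F.card < E.card) : ∃ a ∈ E, a ∉ F :=
  Finset.exists_mem_notMem_of_card_lt_card h

theorem anti_il {a : V} {X Y : Set V} (h1 : Anti G {a} Y) (h2 : Anti G X Y) :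
    Anti G (insert a X) Y := by
  rw [Set.insert_eq]; exact h1.union_left h2

theorem anti_ir {a : V} {X Y : Set V} (h1 : Anti G X {a}) (h2 : Anti G X Y) :
    Anti G X (insert a Y) := by
  rw [Set.insert_eq]; exact h1.union_right h2

theorem anti_pt {X Y : Set V} {a : V} (h : Anti G X Y) (ha : a ∈ X) : Anti G {a} Y :=
  h.mono (Set.singleton_subset_iff.2 ha) le_rfl

theorem anti_ss {a b : V} (h1 : a ≠ b) (h2 : ¬ G.Adj a b) : Anti G {a} {b} :=
  anti_singleton_singleton.2 ⟨h1, h2⟩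

theorem anti_s {a : V} {Y : Set V} (h1 : a ∉ Y) (h2 : ¬ Sees G a Y) : Anti G {a} Y :=
  anti_singleton_left.2 ⟨h1, h2⟩

theorem cN_adj {a b : V} (h : G.Adj a b) : a ∈ cN G {b} := Or.inr ⟨b, rfl, h⟩

theorem cN_il {a v : V} {X : Set V} (h : G.Adj v a) : v ∈ cN G (insert a X) :=
  Or.inr ⟨a, Or.inl rfl, h⟩

theorem cN_ir {a v : V} {X : Set V} (h : v ∈ cN G X) : v ∈ cN G (insert a X) :=
  cN_mono (Set.subset_insert _ _) h

theorem closed {Y P : Set V} (hY : Conn G Y) {a : V} (ha : a ∈ Y) (hP : a ∈ P)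
    (h : ∀ q ∈ Y, Sees G q P → q ∈ P) : Y ⊆ P := fun _ hv =>
  (hY.rin ha hv).closed hP fun x y hx e hy => h y hy ⟨x, hx, e.symm⟩

theorem anti_c {c : V} {X : Set V} (h : X ⊆ Out G c) : Anti G {c} X := by
  rintro x rfl y hy
  exact h hy

theorem clq_alpha {K : Set V} (h : Clq G K) : AlphaLe G K 1 := fun _ hs hst =>
  Finset.card_le_one.2 fun a ha b hb => by
    by_contra hne
    exact hst a ha b hb (h a (hs ha) b (hs hb) hne)

theorem alpha_union {X Y : Set V} {a b : ℕ} (hX : AlphaLe G X a) (hY : AlphaLe G Y b) :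
    AlphaLe G (X ∪ Y) (a + b) := by
  classical
  intro s hs hst
  have h1 := hX (s.filter fun x => x ∈ X) (fun x hx => (Finset.mem_filter.1 hx).2)
    fun x hx y hy => hst x (Finset.mem_filter.1 hx).1 y (Finset.mem_filter.1 hy).1
  have h2 := hY (s.filter fun x => ¬ x ∈ X)
    (fun x hx => (hs (Finset.mem_filter.1 hx).1).resolve_left (Finset.mem_filter.1 hx).2)
    fun x hx y hy => hst x (Finset.mem_filter.1 hx).1 y (Finset.mem_filter.1 hy).1
  have := Finset.card_filter_add_card_filter_not (s := s) fun x => x ∈ X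
  omega

theorem clq_common (hG : EHF G) {u v : V} (hne : u ≠ v) (hna : ¬ G.Adj u v) {K : Set V}
    (h : ∀ x ∈ K, G.Adj u x ∧ G.Adj v x) : Clq G K := fun x hx y hy e =>
  hG.adj_of_common hne hna (h x hx).1 (h x hx).2 (h y hy).1 (h y hy).2 e

/-- (CENTER) -/
theorem center (hG : EHF G) {c y v v' : V} {L A A' : Set V} (hy : y ∈ Out G c)
    (cL : Conn G L) (cA : Conn G A) (cA' : Conn G A') (aLA : Anti G L A) (aLA' : Anti G L A')
    (aAA' : Anti G A A') (sL : c ∈ cN G L) (sA : c ∈ cN G A) (sA' : c ∈ cN G A')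
    (yL : y ∈ cN G L) (yA : Anti G {y} A) (yA' : Anti G {y} A') (ev : G.Adj y v)
    (ev' : G.Adj y v') (hv : v ∈ Out G c) (hv' : v' ∈ Out G c) (vL : Anti G {v} L)
    (vL' : Anti G {v'} L) (vA : v ∈ cN G A) (vA' : v' ∈ cN G A') :
    Anti G {v} A' ∧ Anti G {v'} A ∧ G.Adj v v' := by
  have key : ∀ x, x ∈ Out G c → G.Adj y x → x ∈ cN G A → x ∈ cN G A' → False := fun x hx e h1 h2 =>
    hG.theta hx.1 hx.2 (cL.ins yL) cA cA' (anti_il yA aLA) (anti_il yA' aLA') aAA'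
      (cN_ir sL) (cN_il e.symm) sA h1 sA' h2
  have h1 : Anti G {v} A' := not_touch.1 fun e => key v hv ev vA (touch_singleton_left.1 e)
  have h2 : Anti G {v'} A := not_touch.1 fun e => key v' hv' ev' (touch_singleton_left.1 e) vA'
  refine ⟨h1, h2, ?_⟩
  by_contra hna
  have hne : v ≠ v' := fun e => key v hv ev vA (e ▸ vA')
  exact hG.theta hy.1 hy.2 cL (cA.ins vA) (cA'.ins vA') (anti_ir vL.symm aLA)
    (anti_ir vL'.symm aLA') (anti_il (anti_ir (anti_ss hne hna) h1) (anti_ir h2.symm aAA'))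
    sL yL (cN_ir sA) (cN_il ev) (cN_ir sA') (cN_il ev')

namespace Ctr

variable {c : V} {M : Finset V} (C : Ctr G c M)
include C

theorem notOut {w : V} (hw : w ∈ M) : w ∉ Out G c := fun h => h.2 (C.adj w hw)

theorem notMem {w : V} {X : Set V} (hw : w ∈ M) (hX : X ⊆ Out G c) : w ∉ X :=
  fun h => C.notOut hw (hX h)

theorem ne {w v : V} (hw : w ∈ M) (hv : v ∈ Out G c) : v ≠ w := fun e => C.notOut hw (e ▸ hv)

theorem anti_w {w : V} {X : Set V} (hw : w ∈ M) (hX : X ⊆ Out G c) (h : ¬ Sees G w X) :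
    Anti G {w} X := anti_s (C.notMem hw hX) h

theorem anti_ww {w w' : V} (hw : w ∈ M) (hw' : w' ∈ M) (h : w ≠ w') : Anti G {w} {w'} :=
  anti_ss h (C.st w hw w' hw')

theorem one {v w w' : V} (hv : v ∈ Out G c) (hw : w ∈ M) (hw' : w' ∈ M) (e : G.Adj v w)
    (e' : G.Adj v w') : w = w' := by
  by_contra hne
  exact hv.2 (C.ehf.adj_of_common hne (C.st w hw w' hw') (C.adj w hw).symm (C.adj w' hw').symm
    e.symm e'.symm hv.1)

/-- (W2) -/
theorem w2 {X X' : Set V} (cX : Conn G X) (cX' : Conn G X') (oX : X ⊆ Out G c)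
    (oX' : X' ⊆ Out G c) (hA : Anti G X X') {w w' : V} (hw : w ∈ M) (hw' : w' ∈ M)
    (h1 : Sees G w X) (h2 : Sees G w X') (h3 : Sees G w' X) (h4 : Sees G w' X') : w = w' := by
  by_contra hne
  exact C.ehf.theta hne (C.st w hw w' hw') (conn_singleton c) cX cX' (anti_c oX) (anti_c oX') hA
    (cN_adj (C.adj w hw).symm) (cN_adj (C.adj w' hw').symm) (Or.inr h1) (Or.inr h3) (Or.inr h2)
    (Or.inr h4)

theorem w2' {X X' : Set V} (cX : Conn G X) (cX' : X' = ∅ ∨ Conn G X') (oX : X ⊆ Out G c)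
    (oX' : X' ⊆ Out G c) (hA : Anti G X X') :
    ∃ E : Finset V, E.card ≤ 1 ∧ ∀ w, w ∈ M ∧ Sees G w X ∧ Sees G w X' → w ∈ E := by
  refine exists_one fun a b ha hb => ?_
  rcases cX' with rfl | cX'
  · obtain ⟨x, hx, -⟩ := ha.2.2
    exact hx.elim
  · exact C.w2 cX cX' oX oX' hA ha.1 hb.1 ha.2.1 ha.2.2 hb.2.1 hb.2.2

theorem odd_link {L : Set V} (cL : Conn G L) (oL : L ⊆ Out G c) {w w' : V} (hw : w ∈ M)
    (hw' : w' ∈ M) (hne : w ≠ w') (h1 : Sees G w L) (h2 : Sees G w' L) :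
    ∃ d, IP G w w' d L ∧ Odd d := by
  obtain ⟨d, hd⟩ := cL.exists_ip_sees h1 h2
  exact ⟨d, hd, C.ehf.odd_of_sector hd hne (C.adj w hw) (C.adj w' hw') (anti_c oL)⟩

/-- (W4) -/
theorem w4 {B₁ B₂ B₃ B₄ : Set V} (c1 : Conn G B₁) (c2 : Conn G B₂) (c3 : Conn G B₃)
    (c4 : Conn G B₄) (o1 : B₁ ⊆ Out G c) (o2 : B₂ ⊆ Out G c) (o3 : B₃ ⊆ Out G c)
    (o4 : B₄ ⊆ Out G c) (a12 : Anti G B₁ B₂) (a13 : Anti G B₁ B₃) (a14 : Anti G B₁ B₄)
    (a23 : Anti G B₂ B₃) (a24 : Anti G B₂ B₄) (a34 : Anti G B₃ B₄) {p q r s : V} (hp : p ∈ M)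
    (hq : q ∈ M) (hr : r ∈ M) (hs : s ∈ M)
    (p1 : Sees G p B₁) (p2 : Sees G p B₂) (p3 : ¬ Sees G p B₃) (p4 : ¬ Sees G p B₄)
    (q1 : ¬ Sees G q B₁) (q2 : Sees G q B₂) (q3 : Sees G q B₃) (q4 : ¬ Sees G q B₄)
    (r1 : ¬ Sees G r B₁) (r2 : ¬ Sees G r B₂) (r3 : Sees G r B₃) (r4 : Sees G r B₄)
    (s1 : Sees G s B₁) (s2 : ¬ Sees G s B₂) (s3 : ¬ Sees G s B₃) (s4 : Sees G s B₄) : False := by
  have n1 : s ≠ p := fun e => s2 (e ▸ p2)
  have n2 : p ≠ q := fun e => p3 (e ▸ q3)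
  have n3 : r ≠ q := fun e => r2 (e ▸ q2)
  have n4 : s ≠ r := fun e => s3 (e ▸ r3)
  obtain ⟨d1, i1, e1⟩ := C.odd_link c1 o1 hs hp n1 s1 p1
  obtain ⟨d2, i2, e2⟩ := C.odd_link c2 o2 hp hq n2 p2 q2
  obtain ⟨d3, i3, e3⟩ := C.odd_link c3 o3 hr hq n3 r3 q3
  obtain ⟨d4, i4, e4⟩ := C.odd_link c4 o4 hs hr n4 s4 r4
  have := C.ehf.hole4 a12 a13 a14 a23 a24 a34 (C.anti_w hp o3 p3) (C.anti_w hp o4 p4)
    (C.anti_w hq o1 q1) (C.anti_w hq o4 q4) (C.anti_w hr o1 r1) (C.anti_w hr o2 r2)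
    (C.anti_w hs o2 s2) (C.anti_w hs o3 s3) (C.anti_ww hp hr fun e => p3 (e ▸ r3))
    (C.anti_ww hs hq fun e => s2 (e ▸ q2)) n1 n2 n3 n4 i1 i2 i3 i4
  rw [Nat.odd_iff] at this e1 e2 e3 e4
  omega

end Ctr

/-- a digraph of bounded out-degree on many vertices has two vertices without an arc -/
theorem pair_free {ι : Type} (s : Finset ι) (r : ι → ι → Prop) (a : ℕ)
    (h : ∀ i ∈ s, ∃ E : Finset ι, E.card ≤ a ∧ ∀ j ∈ s, r i j → j ∈ E)
    (hs : 2 * a + 2 ≤ s.card) : ∃ i ∈ s, ∃ j ∈ s, i ≠ j ∧ ¬ r i j ∧ ¬ r j i := by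
  classical
  have hout : ∀ i ∈ s, (s.bipartiteAbove r i).card ≤ a := fun i hi => by
    obtain ⟨E, h1, h2⟩ := h i hi
    exact (Finset.card_le_card fun j hj =>
      h2 j (Finset.mem_filter.1 hj).1 (Finset.mem_filter.1 hj).2).trans h1
  obtain ⟨i, hi, hin⟩ : ∃ i ∈ s, (s.bipartiteBelow r i).card ≤ a := by
    refine Finset.exists_le_of_sum_le (Finset.card_pos.1 (by omega)) ?_
    rw [← Finset.sum_card_bipartiteAbove_eq_sum_card_bipartiteBelow]
    exact Finset.sum_le_sum hout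
  obtain ⟨j, hj, hj'⟩ := Finset.exists_mem_notMem_of_card_lt_card
    (s := insert i (s.bipartiteAbove r i ∪ s.bipartiteBelow r i)) (t := s) (by
      have h1 := Finset.card_insert_le i (s.bipartiteAbove r i ∪ s.bipartiteBelow r i)
      have h2 := Finset.card_union_le (s.bipartiteAbove r i) (s.bipartiteBelow r i)
      have h3 := hout i hi
      omega)
  simp only [Finset.mem_insert, Finset.mem_union, Finset.mem_bipartiteAbove,
    Finset.mem_bipartiteBelow, not_or, not_and] at hj'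
  exact ⟨i, hi, j, hj, fun e => hj'.1 e.symm, hj'.2.1 hj, hj'.2.2 hj⟩

/-- no connected subset of `U` sees both sets -/
def Apart (G : SimpleGraph V) (U : Set V) (P Q : Finset V) : Prop :=
  ∀ Y, Conn G Y → Y ⊆ U → ∀ p ∈ P, ∀ q ∈ Q, Sees G p Y → ¬ Sees G q Y

theorem Apart.symm {U : Set V} {P Q : Finset V} (h : Apart G U P Q) : Apart G U Q P :=
  fun Y h1 h2 p hp q hq e e' => h Y h1 h2 q hq p hp e' e

theorem Apart.mono {U : Set V} {P Q P' Q' : Finset V} (h : Apart G U P Q) (hP : P' ⊆ P)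
    (hQ : Q' ⊆ Q) : Apart G U P' Q' := fun Y h1 h2 p hp q hq => h Y h1 h2 p (hP hp) q (hQ hq)

/-- (SEE) -/
theorem see {c : V} {M : Finset V} (C : Ctr G c M) {U : Set V} (hU : U ⊆ Out G c)
    {E P Q : Finset V} (hE : E ⊆ M) (hP : P ⊆ M) (hQ : Q ⊆ M) (hPQ : Disjoint P Q) {m ρ : ℕ}
    (cP : P.card = m) (cQ : Q.card = m) (cE : 2 * m + m * m * (5 * ρ + 2) ≤ E.card)
    (hρ : ∀ v ∈ U, ∀ j, j ∈ P ∨ j ∈ Q → Sees G j (comp G U v) → Lo G E ρ (comp G U v)) :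
    ∃ A ⊆ E, m ≤ A.card ∧ (Apart G U A P ∨ Apart G U A Q) := by
  classical
  let R : V → V → Prop := fun i j => ∃ v ∈ U, Sees G i (comp G U v) ∧ Sees G j (comp G U v)
  have oc : ∀ v, comp G U v ⊆ Out G c := fun v => (comp_subset U v).trans hU
  have key : ∀ j ∈ P, ∀ j' ∈ Q, (E.filter fun i => R i j ∧ R i j').card ≤ 5 * ρ + 2 := by
    intro j hj j' hj'
    have hne : j ≠ j' := fun e => Finset.disjoint_left.1 hPQ hj (e ▸ hj')
    obtain ⟨F, hF, hF'⟩ : ∃ F : Finset V, F.card ≤ ρ ∧ ∀ i ∈ E, ∀ v ∈ U, Sees G j (comp G U v) →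
        Sees G j' (comp G U v) → Sees G i (comp G U v) → i ∈ F := by
      by_cases h : ∃ v ∈ U, Sees G j (comp G U v) ∧ Sees G j' (comp G U v)
      · obtain ⟨v, hv, h1, h2⟩ := h
        obtain ⟨F, hF, hF'⟩ := hρ v hv j (Or.inl hj) h1
        refine ⟨F, hF, fun i hi v' hv' h3 h4 h5 => hF' i hi ?_⟩
        by_cases e : comp G U v = comp G U v'
        · rwa [e]
        · exact (hne (C.w2 (conn_comp hv) (conn_comp hv') (oc v) (oc v') (comp_anti_of_ne e)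
            (hP hj) (hQ hj') h1 h3 h2 h4)).elim
      · exact ⟨∅, by simp, fun i _ v hv h3 h4 _ => (h ⟨v, hv, h3, h4⟩).elim⟩
    by_contra hc
    set s := (E.filter fun i => R i j ∧ R i j') \ F with hs
    have hs1 : ∀ i ∈ s, i ∈ E ∧ i ∉ F ∧ R i j ∧ R i j' := fun i hi => by
      have := Finset.mem_sdiff.1 hi
      exact ⟨(Finset.mem_filter.1 this.1).1, this.2, (Finset.mem_filter.1 this.1).2⟩
    have ex : ∀ i, ∃ v v', i ∈ s → (v ∈ U ∧ Sees G i (comp G U v) ∧ Sees G j (comp G U v)) ∧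
        v' ∈ U ∧ Sees G i (comp G U v') ∧ Sees G j' (comp G U v') := fun i => by
      by_cases hi : i ∈ s
      · obtain ⟨-, -, ⟨v, h1⟩, v', h2⟩ := hs1 i hi
        exact ⟨v, v', fun _ => ⟨h1, h2⟩⟩
      · exact ⟨i, i, fun h => (hi h).elim⟩
    choose a b hab using ex
    obtain ⟨i, hi, i', hi', -, n1, n2⟩ := pair_free s
      (fun i i' => Sees G i' (comp G U (a i)) ∨ Sees G i' (comp G U (b i))) (2 * ρ) (fun i hi => by
        obtain ⟨⟨h1, -, h2⟩, h3, -, h4⟩ := hab i hi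
        obtain ⟨F1, c1, d1⟩ := hρ _ h1 j (Or.inl hj) h2
        obtain ⟨F2, c2, d2⟩ := hρ _ h3 j' (Or.inr hj') h4
        refine ⟨F1 ∪ F2, (Finset.card_union_le _ _).trans (by omega), fun k hk e => ?_⟩
        exact Finset.mem_union.2 (e.imp (d1 k (hs1 k hk).1) (d2 k (hs1 k hk).1))) (by
        have := Finset.le_card_sdiff F (E.filter fun i => R i j ∧ R i j')
        rw [← hs] at this
        omega)
    rw [not_or] at n1 n2
    obtain ⟨⟨a1, a2, a3⟩, b1, b2, b3⟩ := hab i hi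
    obtain ⟨⟨a1', a2', a3'⟩, b1', b2', b3'⟩ := hab i' hi'
    have f1 : ¬ Sees G j' (comp G U (a i)) := fun e => (hs1 i hi).2.1 (hF' i (hs1 i hi).1 _ a1 a3 e a2)
    have f2 : ¬ Sees G j (comp G U (b i)) := fun e => (hs1 i hi).2.1 (hF' i (hs1 i hi).1 _ b1 e b3 b2)
    have f3 : ¬ Sees G j' (comp G U (a i')) :=
      fun e => (hs1 i' hi').2.1 (hF' i' (hs1 i' hi').1 _ a1' a3' e a2')
    have f4 : ¬ Sees G j (comp G U (b i')) :=
      fun e => (hs1 i' hi').2.1 (hF' i' (hs1 i' hi').1 _ b1' e b3' b2')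
    have an : ∀ {x y w : V}, Sees G w (comp G U x) → ¬ Sees G w (comp G U y) →
        Anti G (comp G U x) (comp G U y) := fun h1 h2 => comp_anti_of_ne fun e => h2 (e ▸ h1)
    exact C.w4 (conn_comp a1) (conn_comp b1) (conn_comp b1') (conn_comp a1') (oc _) (oc _) (oc _)
      (oc _) (an a3 f2) (an a3 f4) (an a2 n2.1) (an b2 n2.2) (an b2 n2.1) (an b3' f3)
      (hE (hs1 i hi).1) (hQ hj') (hE (hs1 i' hi').1) (hP hj) a2 b2 n2.2 n2.1 f1 b3 b3' f3
      n1.1 n1.2 b2' a2' a3 f2 f4 a3'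
  have ap : ∀ T : Finset V, Apart G U (E.filter fun i => ∀ j ∈ T, ¬ R i j) T := by
    intro T Y hY hYU p hp q hq e e'
    obtain ⟨v, hv⟩ := hY.nonempty
    have := hY.subset_comp_of_mem hYU hv
    exact (Finset.mem_filter.1 hp).2 q hq ⟨v, hYU hv, e.mono this, e'.mono this⟩
  have hsub : E ⊆ ((E.filter fun i => ∀ j ∈ P, ¬ R i j) ∪ (E.filter fun i => ∀ j ∈ Q, ¬ R i j)) ∪
      (P ×ˢ Q).biUnion fun x => E.filter fun i => R i x.1 ∧ R i x.2 := by
    intro i hi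
    simp only [Finset.mem_union, Finset.mem_filter, Finset.mem_biUnion, Finset.mem_product]
    by_cases h1 : ∀ j ∈ P, ¬ R i j
    · exact Or.inl (Or.inl ⟨hi, h1⟩)
    by_cases h2 : ∀ j ∈ Q, ¬ R i j
    · exact Or.inl (Or.inr ⟨hi, h2⟩)
    push Not at h1 h2
    obtain ⟨j, hj, e⟩ := h1
    obtain ⟨j', hj', e'⟩ := h2
    exact Or.inr ⟨(j, j'), ⟨hj, hj'⟩, hi, e, e'⟩
  have h1 := (Finset.card_le_card hsub).trans (Finset.card_union_le _ _)
  have h2 := Finset.card_union_le (E.filter fun i => ∀ j ∈ P, ¬ R i j)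
    (E.filter fun i => ∀ j ∈ Q, ¬ R i j)
  have h3 := Finset.card_biUnion_le_card_mul (P ×ˢ Q) (fun x => E.filter fun i => R i x.1 ∧ R i x.2)
    (5 * ρ + 2) fun x hx => key _ (Finset.mem_product.1 hx).1 _ (Finset.mem_product.1 hx).2
  rw [Finset.card_product, cP, cQ] at h3
  by_cases h : m ≤ (E.filter fun i => ∀ j ∈ P, ¬ R i j).card
  · exact ⟨_, Finset.filter_subset _ _, h, Or.inl (ap P)⟩
  · exact ⟨_, Finset.filter_subset _ _, by omega, Or.inr (ap Q)⟩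

/-- the bound of S4 -/
def nSee (m : ℕ) : ℕ := 4 * m + m * m * (5 * (2 * m + m * m * 7) + 2)

/-- (S4) -/
theorem apart_of_mi {c : V} {M : Finset V} (C : Ctr G c M) {U : Set V} (hU : U ⊆ Out G c) {m : ℕ}
    (hM : nSee m ≤ M.card) (h : ∀ Y, Conn G Y → Y ⊆ U → Mi G M (2 * m) Y) :
    ∃ A ⊆ M, ∃ B ⊆ M, m ≤ A.card ∧ m ≤ B.card ∧ Apart G U A B := by
  classical
  have split : ∀ F : Finset V, 2 * m ≤ F.card → ∃ P ⊆ F, ∃ Q ⊆ F, Disjoint P Q ∧ P.card = m ∧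
      Q.card = m := fun F hF => by
    obtain ⟨P, h1, h2⟩ := Finset.exists_subset_card_eq (s := F) (n := m) (by omega)
    obtain ⟨Q, h3, h4⟩ := Finset.exists_subset_card_eq (s := F \ P) (n := m) (by
      rw [Finset.card_sdiff_of_subset h1]; omega)
    exact ⟨P, h1, Q, h3.trans Finset.sdiff_subset,
      Finset.disjoint_left.2 fun x hx hx' => (Finset.mem_sdiff.1 (h3 hx')).2 hx, h2, h4⟩
  have fin : ∀ (E P Q : Finset V) (ρ : ℕ), E ⊆ M → P ⊆ M → Q ⊆ M → Disjoint P Q → P.card = m →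
      Q.card = m → 2 * m + m * m * (5 * ρ + 2) ≤ E.card →
      (∀ v ∈ U, ∀ j, j ∈ P ∨ j ∈ Q → Sees G j (comp G U v) → Lo G E ρ (comp G U v)) →
      ∃ A ⊆ M, ∃ B ⊆ M, m ≤ A.card ∧ m ≤ B.card ∧ Apart G U A B := by
    intro E P Q ρ h1 h2 h3 h4 h5 h6 h7 h8
    obtain ⟨A, hA, cA, h | h⟩ := see C hU h1 h2 h3 h4 h5 h6 h7 h8
    · exact ⟨A, hA.trans h1, P, h2, cA, h5.ge, h⟩
    · exact ⟨A, hA.trans h1, Q, h3, cA, h6.ge, h⟩
  by_cases hb : ∀ v ∈ U, Lo G M (2 * m + m * m * 7) (comp G U v)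
  · obtain ⟨P, h1, Q, h2, h3, h4, h5⟩ := split M (by unfold nSee at hM; omega)
    exact fin M P Q _ le_rfl h1 h2 h3 h4 h5 (by unfold nSee at hM; omega) fun v hv _ _ _ => hb v hv
  · push Not at hb
    obtain ⟨v, hv, hb⟩ := hb
    obtain ⟨F, hF, cF, hF'⟩ := h _ (conn_comp hv) (comp_subset U v)
    obtain ⟨P, h1, Q, h2, h3, h4, h5⟩ := split F cF
    refine fin (M.filter fun w => Sees G w (comp G U v)) P Q 1 (Finset.filter_subset _ _)
      (h1.trans hF) (h2.trans hF) h3 h4 h5 ?_ fun v' hv' j hj e => ?_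
    · by_contra hc
      exact hb ⟨_, (not_le.1 hc).le, fun w hw e => Finset.mem_filter.2 ⟨hw, e⟩⟩
    · have hj' : j ∈ F := hj.elim (@h1 j) (@h2 j)
      obtain ⟨E, cE, hE⟩ := C.w2' (conn_comp hv) (Or.inr (conn_comp hv'))
        ((comp_subset U v).trans hU) ((comp_subset U v').trans hU)
        (comp_anti_of_ne fun e' => hF' j hj' (e' ▸ e))
      exact ⟨E, cE, fun w hw e' =>
        hE w ⟨(Finset.mem_filter.1 hw).1, (Finset.mem_filter.1 hw).2, e'⟩⟩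

end Pool.Agent.Ehf.Star
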