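import Pool.Agent.MP_3ad207_lc.H88.StarA

/-! Star case, part B: the minimal big state and its first properties. -/

set_option autoImplicit false

namespace Pool.Agent.Ehf.Star

variable {V : Type} {G : SimpleGraph V}

/-- the conclusion of SPLIT -/
def Split (G : SimpleGraph V) (c : V) (M : Finset V) (m : ℕ) : Prop :=
  ∃ (T : Finset V) (K : Set V), T ⊆ M ∧ T.card ≤ 2 ∧ AlphaLe G K 4 ∧
    ∀ Y, Conn G Y → Y ⊆ Out G c → (∀ w ∈ T, ¬ Sees G w Y) → Disjoint Y K → Mi G M m Y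

/-- the region `U`, which contains exactly one port `u₁` of `w₁` -/
structure Base (G : SimpleGraph V) (c : V) (M : Finset V) (w₁ u₁ : V) (U : Set V) : Prop
    extends Ctr G c M where
  wM : w₁ ∈ M
  UO : U ⊆ Out G c
  Ucl : ∀ v ∈ Out G c, ¬ G.Adj w₁ v → Sees G v U → v ∈ U
  cU : Conn G U
  uU : u₁ ∈ U
  uw : G.Adj w₁ u₁
  uu : ∀ v ∈ U, G.Adj w₁ v → v = u₁

/-- good whites -/
def Good (G : SimpleGraph V) (M : Finset V) (Y D : Set V) (w : V) : Prop :=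
  w ∈ M ∧ Sees G w D ∧ ¬ Sees G w Y

/-- big states -/
structure St (G : SimpleGraph V) (M : Finset V) (h : ℕ) (w₁ u₁ : V) (U Y D : Set V) : Prop where
  YU : Y ⊆ U
  cY0 : Y = ∅ ∨ (Conn G Y ∧ u₁ ∈ Y)
  DU : D ⊆ U
  cD : Conn G D
  aD : Anti G (insert w₁ Y) D
  Dcl : ∀ v ∈ U, Sees G v D → v ∈ D ∨ v ∈ cN G (insert w₁ Y)
  big : ∃ E : Finset V, E.card ≤ h ∧ ∀ w ∈ M, w ∉ E → Good G M Y D w

/-- the boundary of `D` in `U` -/
def Bd (G : SimpleGraph V) (U D : Set V) : Set V := {y | y ∈ U ∧ y ∉ D ∧ Sees G y D}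

/-- a big state in its region -/
structure Pre (G : SimpleGraph V) (c : V) (M : Finset V) (h : ℕ) (w₁ u₁ : V) (U Y D : Set V) : Prop
    extends Base G c M w₁ u₁ U, St G M h w₁ u₁ U Y D

/-- a minimal big state -/
structure Cfg (G : SimpleGraph V) (c : V) (M : Finset V) (h : ℕ) (w₁ u₁ : V) (U Y D : Set V) : Prop
    extends Pre G c M h w₁ u₁ U Y D where
  min : ∀ y ∈ Bd G U D, ∀ D', Conn G D' → D' ⊆ D → Anti G {y} D' →
    ∃ E ⊆ M, h < E.card ∧ ∀ w ∈ E, ¬ (Good G M Y D w ∧ Sees G w D' ∧ ¬ G.Adj w y)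

theorem exit {Y P : Set V} (hY : Conn G Y) {a : V} (ha : a ∈ Y) (hP : a ∈ P) (h : ¬ Y ⊆ P) :
    ∃ q ∈ Y, Sees G q P ∧ q ∉ P := by
  by_contra hc
  push Not at hc
  exact h (closed hY ha hP hc)

theorem closed' {Y P : Set V} (hY : Conn G Y) (ht : Touch G Y P)
    (h : ∀ q ∈ Y, Sees G q P → q ∈ P) : Y ⊆ P := by
  obtain ⟨a, ha, ha'⟩ := touch_iff.1 ht
  exact closed hY ha (ha'.elim id (h a ha)) h

namespace Pre

variable {c w₁ u₁ : V} {M : Finset V} {h : ℕ} {U Y D : Set V} (C : Pre G c M h w₁ u₁ U Y D)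
include C

theorem DO : D ⊆ Out G c := C.DU.trans C.UO

theorem YO : Y ⊆ Out G c := C.YU.trans C.UO

theorem cY : Conn G (insert w₁ Y) := by
  rcases C.cY0 with rfl | h
  · simpa using conn_singleton w₁
  · exact h.1.ins (Or.inr ⟨u₁, h.2, C.uw⟩)

theorem cYc : c ∈ cN G (insert w₁ Y) := cN_il (C.adj w₁ C.wM)

theorem aYD {X : Set V} (hX : X ⊆ D) : Anti G Y X := C.aD.mono (Set.subset_insert _ _) hX

theorem aD' {X : Set V} (hX : X ⊆ D) : Anti G (insert w₁ Y) X := C.aD.mono le_rfl hX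

theorem awD {X : Set V} (hX : X ⊆ D) : Anti G {w₁} X := anti_pt (C.aD' hX) (Or.inl rfl)

theorem aYc : Anti G Y {c} := (anti_c C.YO).symm

theorem bdO {y : V} (hy : y ∈ Bd G U D) : y ∈ Out G c := C.UO hy.1

theorem bdY {y : V} (hy : y ∈ Bd G U D) : y ∈ cN G (insert w₁ Y) :=
  (C.Dcl y hy.1 hy.2.2).resolve_left hy.2.1

theorem bd_ne : ∃ y, y ∈ Bd G U D := by
  obtain ⟨d, hd⟩ := C.cD.nonempty
  obtain ⟨q, h1, h2, h3⟩ := exit C.cU (C.DU hd) hd fun e => (C.awD le_rfl).not_adj rfl (e C.uU) C.uw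
  exact ⟨q, h1, h3, h2⟩

theorem cN_Y (hu : u₁ ∈ Y) {y : V} (hy : y ∈ U) (h : y ∈ cN G (insert w₁ Y)) : y ∈ cN G Y := by
  rcases h with (rfl | h) | ⟨x, rfl | hx, e⟩
  · exact (C.notMem C.wM C.UO hy).elim
  · exact Or.inl h
  · exact Or.inl (C.uu y hy e.symm ▸ hu)
  · exact Or.inr ⟨x, hx, e⟩

theorem cN_e (hY : Y = ∅) {y : V} (hy : y ∈ U) (h : y ∈ cN G (insert w₁ Y)) : y = u₁ := by
  subst hY
  rcases h with (rfl | h) | ⟨x, rfl | hx, e⟩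
  · exact (C.notMem C.wM C.UO hy).elim
  · exact h.elim
  · exact C.uu y hy e.symm
  · exact hx.elim

theorem bd_sees (hu : u₁ ∈ Y) {y : V} (hy : y ∈ Bd G U D) : Sees G y Y :=
  (C.cN_Y hu hy.1 (C.bdY hy)).resolve_left fun e => (C.aYD le_rfl).not_sees e hy.2.2

theorem two {y y' : V} (hy : y ∈ Bd G U D) (hy' : y' ∈ Bd G U D) (hne : y ≠ y') :
    Conn G Y ∧ Sees G y Y ∧ Sees G y' Y ∧ Sees G w₁ Y := by
  rcases C.cY0 with h | h
  · exact (hne ((C.cN_e h hy.1 (C.bdY hy)).trans (C.cN_e h hy'.1 (C.bdY hy')).symm)).elim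
  · exact ⟨h.1, C.bd_sees h.2 hy, C.bd_sees h.2 hy', u₁, h.2, C.uw⟩

theorem g_ne {w : V} (hw : Good G M Y D w) : w₁ ≠ w :=
  fun e => (C.awD le_rfl).not_sees rfl (e ▸ hw.2.1)

theorem aYw {w : V} (hw : Good G M Y D w) : Anti G Y {w} := (C.anti_w hw.1 C.YO hw.2.2).symm

theorem aYw' {w : V} (hw : Good G M Y D w) : Anti G (insert w₁ Y) {w} :=
  anti_il (C.anti_ww C.wM hw.1 (C.g_ne hw)) (C.aYw hw)

theorem aYA {w : V} {X : Set V} (hw : Good G M Y D w) (hX : X ⊆ D) : Anti G Y (insert w X) :=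
  anti_ir (C.aYw hw) (C.aYD hX)

theorem aYA' {w : V} {X : Set V} (hw : Good G M Y D w) (hX : X ⊆ D) :
    Anti G (insert w₁ Y) (insert w X) := anti_ir (C.aYw' hw) (C.aD' hX)

theorem sub_U {X : Set V} (cX : Conn G X) (oX : X ⊆ Out G c) (hw : ¬ Sees G w₁ X)
    (ht : Touch G X U) : X ⊆ U :=
  closed' cX ht fun q hq e => C.Ucl q (oX hq) (fun e' => hw ⟨q, hq, e'⟩) e

theorem far {X : Set V} (cX : Conn G X) (oX : X ⊆ Out G c) (hw : ¬ Sees G w₁ X) :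
    X ⊆ U ∨ Lo G M (h + 1) X := by
  classical
  by_cases ht : Touch G X U
  · exact Or.inl (C.sub_U cX oX hw ht)
  obtain ⟨E, cE, hE⟩ := C.big
  obtain ⟨F, cF, hF⟩ := C.w2' cX (Or.inr C.cD) oX C.DO ((not_touch.1 ht).mono le_rfl C.DU)
  refine Or.inr ⟨E ∪ F, (Finset.card_union_le _ _).trans (by omega), fun w hw e => ?_⟩
  by_cases a : w ∈ E
  · exact Finset.mem_union_left _ a
  · exact Finset.mem_union_right _ (hF w ⟨hw, e, (hE w hw a).2.1⟩)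

theorem priv_aux {w p : V} (hw : Good G M Y D w) (hev : ∀ y ∈ Bd G U D, ¬ G.Adj w y) (hp : p ∈ U)
    (hpD : p ∉ D) (e : G.Adj w p) :
    ∃ X, Conn G X ∧ X ⊆ Out G c ∧ Anti G X D ∧ Sees G w X ∧ Y ⊆ X ∧ Y.Nonempty := by
  obtain ⟨n, f, hf, fU, f0, fn, -, fQ⟩ := C.cU.exists_min_path (P := {p}) (Q := cN G (insert w₁ Y))
    ⟨p, hp, rfl⟩ ⟨u₁, C.uU, cN_il C.uw.symm⟩
  rw [Set.mem_singleton_iff] at f0
  have nD : ∀ i, i ≤ n → f i ∉ D := by
    intro i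
    induction i with
    | zero => exact fun _ => f0 ▸ hpD
    | succ i ih =>
      intro hi hD
      exact (C.Dcl _ (fU i (by omega)) ⟨_, hD, hf.adj_succ (by omega)⟩).elim (ih (by omega))
        (fQ i (by omega))
  have nS : ∀ i, i < n → ¬ Sees G (f i) D := fun i hi e =>
    (C.Dcl _ (fU i hi.le) e).elim (nD i hi.le) (fQ i hi)
  have oS : ∀ k, k ≤ n → seg f 0 k ⊆ Out G c := fun k hk =>
    seg_subset fun i _ hi => C.UO (fU i (by omega))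
  have nn : ¬ Sees G (f n) D := by
    intro hs
    have hb : f n ∈ Bd G U D := ⟨fU n le_rfl, nD n le_rfl, hs⟩
    have hn : 0 < n := Nat.pos_of_ne_zero fun e0 => hev _ hb (by rw [e0, f0]; exact e)
    refine C.ehf.theta (C.ne hw.1 (C.bdO hb)) (fun e' => hev _ hb e'.symm) C.cD
      (hf.conn_seg (Nat.zero_le (n - 1)) (by omega)) (C.cY.ins C.cYc) ?_
      (anti_il (anti_c C.DO) C.aD).symm (anti_ir (anti_c (oS _ (by omega))).symm ?_)
      (Or.inr hs) (Or.inr hw.2.1)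
      (Or.inr ⟨_, apply_mem_seg (Nat.zero_le _) le_rfl, hf.adj_pred hn le_rfl⟩)
      (Or.inr ⟨_, apply_mem_seg le_rfl (Nat.zero_le _), f0 ▸ e⟩) (cN_ir fn)
      (cN_il (C.adj w hw.1).symm)
    · refine Anti.symm (anti_iff.2 ?_)
      rintro x ⟨k, -, hk, rfl⟩ (a | a)
      · exact nD k (by omega) a
      · exact nS k (by omega) a
    · refine anti_iff.2 ?_
      rintro x ⟨k, -, hk, rfl⟩
      exact fQ k (by omega)
  have aS : Anti G (seg f 0 n) D := by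
    refine anti_iff.2 ?_
    rintro x ⟨k, -, hk, rfl⟩ (a | a)
    · exact nD k hk a
    · rcases hk.lt_or_eq with hk | rfl
      · exact nS k hk a
      · exact nn a
  rcases C.cY0 with hY | hY
  · obtain ⟨y, hy⟩ := C.bd_ne
    refine (nn ?_).elim
    rw [C.cN_e hY (fU n le_rfl) fn, ← C.cN_e hY hy.1 (C.bdY hy)]
    exact hy.2.2
  · exact ⟨seg f 0 n ∪ Y, (hf.conn_seg (Nat.zero_le _) le_rfl).un hY.1
      (touch_iff.2 ⟨_, apply_mem_seg (Nat.zero_le _) le_rfl, C.cN_Y hY.2 (fU n le_rfl) fn⟩),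
      Set.union_subset (oS n le_rfl) C.YO, aS.union_left (C.aYD le_rfl),
      ⟨_, Or.inl (apply_mem_seg le_rfl (Nat.zero_le _)), f0 ▸ e⟩, Set.subset_union_right, _, hY.2⟩

/-- (PRIV) -/
theorem priv : ∃ F : Finset V, F.card ≤ 1 ∧ ∀ w, Good G M Y D w → (∀ y ∈ Bd G U D, ¬ G.Adj w y) →
    w ∉ F → ∀ p ∈ U, G.Adj w p → p ∈ D := by
  obtain ⟨F, cF, hF⟩ := exists_one (p := fun w => Good G M Y D w ∧ (∀ y ∈ Bd G U D, ¬ G.Adj w y) ∧
      ∃ p ∈ U, p ∉ D ∧ G.Adj w p) (by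
    rintro a b ⟨a1, a2, p, p1, p2, p3⟩ ⟨b1, b2, q, q1, q2, q3⟩
    obtain ⟨X, x1, x2, x3, x4, x5, y, hy⟩ := C.priv_aux a1 a2 p1 p2 p3
    obtain ⟨X', y1, y2, y3, y4, y5, -⟩ := C.priv_aux b1 b2 q1 q2 q3
    exact C.w2 (x1.un y1 (Touch.of_mem (x5 hy) (y5 hy))) C.cD (Set.union_subset x2 y2) C.DO
      (x3.union_left y3) a1.1 b1.1 (x4.mono Set.subset_union_left) a1.2.1
      (y4.mono Set.subset_union_right) b1.2.1)
  refine ⟨F, cF, fun w h1 h2 h3 p h4 h5 => ?_⟩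
  by_contra hc
  exact h3 (hF w ⟨h1, h2, p, h4, hc, h5⟩)

theorem cfg [Finite V] : ∃ Y' D', Cfg G c M h w₁ u₁ U Y' D' := by
  classical
  obtain ⟨D', -, ⟨Y', P⟩, hmin⟩ :=
    exists_min_subset (p := fun D' => ∃ Y', Pre G c M h w₁ u₁ U Y' D') ⟨Y, C⟩
  refine ⟨Y', D', P, fun y hy X cX hX aX => ?_⟩
  refine ⟨M.filter fun w => ¬ (Good G M Y' D' w ∧ Sees G w X ∧ ¬ G.Adj w y),
    Finset.filter_subset _ _, ?_, fun w hw => (Finset.mem_filter.1 hw).2⟩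
  by_contra hc
  obtain ⟨d, hd⟩ := cX.nonempty
  have hsub : insert w₁ Y' ⊆ insert w₁ (insert y Y') :=
    Set.insert_subset_insert (Set.subset_insert _ _)
  have hXW : X ⊆ U \ cN G (insert w₁ (insert y Y')) := fun x hx =>
    ⟨P.DU (hX hx), anti_iff.1 (anti_il (P.awD hX) (anti_il aX (P.aYD hX))).symm x hx⟩
  have hXZ := cX.subset_comp_of_mem hXW hd
  have aZ : Anti G (insert w₁ (insert y Y')) (comp G (U \ cN G (insert w₁ (insert y Y'))) d) :=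
    Anti.symm (anti_iff.2 fun x hx => (comp_subset _ _ hx).2)
  have hZD : comp G (U \ cN G (insert w₁ (insert y Y'))) d ⊆ D' :=
    closed (conn_comp (hXW hd)) (hXZ hd) (hX hd) fun q hq e =>
      (P.Dcl q (comp_subset _ _ hq).1 e).resolve_right fun e' =>
        (comp_subset _ _ hq).2 (cN_mono hsub e')
  have := hmin _ hZD ⟨insert y Y', P.toBase, Set.insert_subset hy.1 P.YU, Or.inr ?_,
    hZD.trans P.DU, conn_comp (hXW hd), aZ, fun v hv e => ?_, _, not_lt.1 hc, fun w hw hw' => ?_⟩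
  · exact aZ.not_sees (Or.inr (Or.inl rfl)) (hy.2.2.mono this)
  · rcases P.cY0 with hY | hY
    · rw [P.cN_e hY hy.1 (P.bdY hy), hY]
      exact ⟨by simpa using conn_singleton u₁, Or.inl rfl⟩
    · exact ⟨hY.1.ins (Or.inr (P.bd_sees hY.2 hy)), Or.inr hY.2⟩
  · by_cases a : v ∈ cN G (insert w₁ (insert y Y'))
    · exact Or.inr a
    · exact Or.inl (mem_comp_of_sees ⟨hv, a⟩ e)
  · have a : Good G M Y' D' w ∧ Sees G w X ∧ ¬ G.Adj w y := by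
      by_contra a
      exact hw' (Finset.mem_filter.2 ⟨hw, a⟩)
    refine ⟨hw, a.2.1.mono hXZ, ?_⟩
    rintro ⟨x, rfl | hx, e⟩
    · exact a.2.2 e
    · exact a.1.2.2 ⟨x, hx, e⟩

end Pre

theorem Cfg.mi {c w₁ u₁ : V} {M : Finset V} {h : ℕ} {U Y D : Set V}
    (C : Cfg G c M h w₁ u₁ U Y D) {y : V} (hy : y ∈ Bd G U D) {D' : Set V} (c' : Conn G D')
    (s' : D' ⊆ D) (a' : Anti G {y} D') : Mi G M (h - 1) D' := by
  classical
  obtain ⟨E, h1, h2, h3⟩ := C.min y hy D' c' s' a'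
  obtain ⟨F, cF, hF⟩ := C.w2' C.cD (C.cY0.imp_right fun e => e.1) C.DO C.YO (C.aYD le_rfl).symm
  obtain ⟨F', cF', hF'⟩ := exists_one (p := fun w => w ∈ M ∧ G.Adj y w)
    fun a b ha hb => C.one (C.bdO hy) ha.1 hb.1 ha.2 hb.2
  refine ⟨E \ (F ∪ F'), Finset.sdiff_subset.trans h1, ?_, fun w hw e => ?_⟩
  · have := Finset.le_card_sdiff (F ∪ F') E
    have := Finset.card_union_le F F'
    omega
  · obtain ⟨a, b⟩ := Finset.mem_sdiff.1 hw
    rw [Finset.mem_union, not_or] at b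
    exact h3 w a ⟨⟨h1 a, e.mono s', fun e' => b.1 (hF w ⟨h1 a, e.mono s', e'⟩)⟩, e,
      fun e' => b.2 (hF' w ⟨h1 a, e'.symm⟩)⟩

theorem lo_of_not_mi {M : Finset V} {m : ℕ} {Y : Set V} (h : ¬ Mi G M m Y) :
    ∃ E : Finset V, E.card < m ∧ ∀ w ∈ M, w ∉ E → Sees G w Y := by
  classical
  refine ⟨M.filter fun w => ¬ Sees G w Y, ?_, fun w hw hw' => ?_⟩
  · by_contra hc
    exact h ⟨_, Finset.filter_subset _ _, not_lt.1 hc, fun w hw => (Finset.mem_filter.1 hw).2⟩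
  · by_contra hc
    exact hw' (Finset.mem_filter.2 ⟨hw, hc⟩)

theorem alpha_empty (k : ℕ) : AlphaLe G ∅ k := fun s hs _ => by
  have : s = ∅ := Finset.coe_eq_empty.1 (Set.subset_empty_iff.1 hs)
  simp [this]

/-- the start of SPLIT -/
theorem start [Finite V] {c : V} {M : Finset V} (C : Ctr G c M) {m h : ℕ} (hm : m ≤ h)
    (hM : 2 * m + 2 ≤ M.card) :
    Split G c M m ∨ ∃ w₁ u₁ U Y D, Cfg G c M h w₁ u₁ U Y D := by
  classical
  by_contra hc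
  rw [not_or] at hc
  obtain ⟨hs, hc⟩ := hc
  have key : ∀ T : Finset V, T ⊆ M → T.card ≤ 2 → ∃ Y, Conn G Y ∧ Y ⊆ Out G c ∧
      (∀ w ∈ T, ¬ Sees G w Y) ∧ ¬ Mi G M m Y := fun T h1 h2 => by
    by_contra hn
    push Not at hn
    exact hs ⟨T, ∅, h1, h2, alpha_empty 4, fun Y a1 a2 a3 _ => hn Y a1 a2 a3⟩
  obtain ⟨X, cX, oX, -, hX⟩ := key ∅ (by simp) (by simp)
  obtain ⟨E, cE, hE⟩ := lo_of_not_mi hX
  obtain ⟨w₁, wM, wE⟩ := exists_out (E := M) (F := E) (by omega)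
  obtain ⟨X', cX', oX', wX', hX'⟩ := key {w₁} (by simpa using wM) (by simp)
  obtain ⟨E', cE', hE'⟩ := lo_of_not_mi hX'
  have wX := wX' w₁ (Finset.mem_singleton_self _)
  have ht : Touch G X X' := by
    by_contra ht
    obtain ⟨F, cF, hF⟩ := C.w2' cX (Or.inr cX') oX oX' (not_touch.1 ht)
    obtain ⟨w, h1, h2⟩ := exists_out (E := M) (F := E ∪ E' ∪ F) (by
      have := Finset.card_union_le (E ∪ E') F
      have := Finset.card_union_le E E'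
      omega)
    simp only [Finset.mem_union, not_or] at h2
    exact h2.2 (hF w ⟨h1, hE w h1 h2.1.1, hE' w h1 h2.1.2⟩)
  obtain ⟨d, hd⟩ := cX'.nonempty
  have sX' : X' ⊆ {v | v ∈ Out G c ∧ ¬ G.Adj w₁ v} := fun v hv => ⟨oX' hv, fun e => wX ⟨v, hv, e⟩⟩
  have sD := cX'.subset_comp_of_mem sX' hd
  set D := comp G {v | v ∈ Out G c ∧ ¬ G.Adj w₁ v} d with hD
  have cD : Conn G D := conn_comp (sX' hd)
  have oD : ∀ v ∈ D, v ∈ Out G c ∧ ¬ G.Adj w₁ v := fun v hv =>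
    comp_subset {v | v ∈ Out G c ∧ ¬ G.Adj w₁ v} d hv
  have Dcl : ∀ v ∈ Out G c, Sees G v D → v ∈ D ∨ G.Adj w₁ v := fun v hv e => by
    by_cases a : G.Adj w₁ v
    · exact Or.inr a
    · exact Or.inl (mem_comp_of_sees ⟨hv, a⟩ e)
  obtain ⟨u₁, h1, h2, h3⟩ := exit (cX.un cX' ht) (Or.inr hd) (sD hd) fun e => by
    obtain ⟨p, hp, e'⟩ := hE w₁ wM wE
    exact (oD p (e (Or.inl hp))).2 e'
  have ou : u₁ ∈ Out G c := Set.union_subset oX oX' h1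
  have uW : u₁ ∈ {v | v ∈ Out G c ∧ (v = u₁ ∨ ¬ G.Adj w₁ v)} := ⟨ou, Or.inl rfl⟩
  have P : Pre G c M h w₁ u₁ (comp G {v | v ∈ Out G c ∧ (v = u₁ ∨ ¬ G.Adj w₁ v)} u₁) ∅ D :=
    ⟨⟨C, wM, fun v hv => (comp_subset _ _ hv).1, fun v hv a e => mem_comp_of_sees ⟨hv, Or.inr a⟩ e,
      conn_comp uW, mem_comp_self uW, (Dcl u₁ ou h2).resolve_left h3,
      fun v hv e => (comp_subset _ _ hv).2.resolve_right (not_not.2 e)⟩, Set.empty_subset _,
      Or.inl rfl, cD.subset_comp (fun v hv => And.intro (oD v hv).1 (Or.inr (oD v hv).2))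
        (Touch.of_sees (mem_comp_self uW) h2).symm, cD,
      anti_il (C.anti_w wM (fun v hv => (oD v hv).1) fun ⟨v, hv, e⟩ => (oD v hv).2 e)
        anti_empty_left,
      fun v hv e => (Dcl v (comp_subset _ _ hv).1 e).imp_right fun a => cN_il a.symm,
      E', by omega, fun w hw hw' => ⟨hw, (hE' w hw hw').mono sD, fun ⟨_, hx, _⟩ => hx⟩⟩
  obtain ⟨Y', D', hC⟩ := P.cfg
  exact hc ⟨_, _, _, _, _, hC⟩

end Pool.Agent.Ehf.Star
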