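import Pool.Agent.MP_3ad207_lc.H88.StarB

/-! Star case, part C: a good white is adjacent to the boundary. -/

set_option autoImplicit false

namespace Pool.Agent.Ehf.Star

variable {V : Type} {G : SimpleGraph V}

namespace Pre

variable {c w₁ u₁ : V} {M : Finset V} {h : ℕ} {U Y D : Set V} (C : Pre G c M h w₁ u₁ U Y D)
include C

theorem a0_miss {l y w : V} {Z : Set V} (hl : Good G M Y D l) (hy : y ∈ Bd G U D) (e : G.Adj l y)
    (cZ : Conn G Z) (sZ : Z ⊆ D) (lZ : ¬ Sees G l Z) (hw : Good G M Y D w) (wZ : Sees G w Z) :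
    Anti G {y} Z := by
  refine anti_s (fun a => hy.2.1 (sZ a)) fun hs => ?_
  have hne : l ≠ w := fun a => lZ (a ▸ wZ)
  exact C.ehf.theta (C.bdO hy).1 (C.bdO hy).2 C.cY (conn_singleton l) (cZ.ins (Or.inr wZ))
    (C.aYw' hl) (C.aYA' hw sZ)
    (anti_ir (C.anti_ww hl.1 hw.1 hne) (C.anti_w hl.1 (sZ.trans C.DO) lZ)) C.cYc (C.bdY hy)
    (cN_adj (C.adj l hl.1)) (cN_adj e.symm) (cN_il (C.adj w hw.1)) (cN_ir (Or.inr hs))

theorem a0 {l y w y' : V} {Z : Set V} (hl : Good G M Y D l) (hy : y ∈ Bd G U D) (e : G.Adj l y)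
    (cZ : Conn G Z) (sZ : Z ⊆ D) (lZ : ¬ Sees G l Z)
    (Zcl : ∀ q ∈ D, Sees G q Z → q ∈ Z ∨ G.Adj l q) (hw : Good G M Y D w) (wZ : Sees G w Z)
    (hy' : y' ∈ Bd G U D) (yZ : Sees G y' Z) : G.Adj l y' := by
  by_contra ly
  have ayZ := C.a0_miss hl hy e cZ sZ lZ hw wZ
  have hne : y ≠ y' := fun a => ayZ.not_sees rfl (a ▸ yZ)
  obtain ⟨cY, sy, sy', sw⟩ := C.two hy hy' hne
  have lw : l ≠ w := fun a => lZ (a ▸ wZ)
  have oZ := sZ.trans C.DO
  have oy := C.bdO hy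
  have oy' := C.bdO hy'
  obtain ⟨z0, hz0⟩ := cZ.nonempty
  obtain ⟨n, f, hf, fU, f0, fn, fP, fQ⟩ := (C.cD.ins (Or.inr hy.2.2)).exists_min_path (P := {y})
    (Q := cN G Z) ⟨y, Or.inl rfl, rfl⟩ ⟨z0, Or.inr (sZ hz0), Or.inl hz0⟩
  rw [Set.mem_singleton_iff] at f0
  have fD : ∀ i, 0 < i → i ≤ n → f i ∈ D := fun i h0 hi => (fU i hi).resolve_left (fP i h0 hi)
  have hn : 0 < n := Nat.pos_of_ne_zero fun e0 => anti_iff.1 ayZ y rfl (by rw [← f0, ← e0]; exact fn)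
  have zZ : f n ∉ Z := fun a => fQ (n - 1) (by omega) (Or.inr ⟨_, a, (hf.adj_pred hn le_rfl).symm⟩)
  have zs : Sees G (f n) Z := fn.resolve_left zZ
  have zD := fD n hn le_rfl
  have oz := C.DO zD
  have lz : G.Adj l (f n) := (Zcl _ zD zs).resolve_left zZ
  have oS : ∀ a b, b ≤ n → seg f a b ⊆ Out G c := fun a b hb => seg_subset fun i _ hi => by
    rcases fU i (by omega) with a | a
    · exact a ▸ oy
    · exact C.DO a
  have aZS : ∀ a b, b < n → Anti G Z (seg f a b) := fun a b hb => Anti.symm (anti_iff.2 (by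
    rintro x ⟨k, -, hk, rfl⟩
    exact fQ k (by omega)))
  have sE : seg f 1 (n - 1) ⊆ D := seg_subset fun i h1 h2 => fD i (by omega) (by omega)
  have oE := sE.trans C.DO
  have aZE := aZS 1 (n - 1) (by omega)
  have alZ := C.anti_w hl.1 oZ lZ
  have alw := C.anti_ww hl.1 hw.1 lw
  have cl := C.adj l hl.1
  have cw := C.adj w hw.1
  have nb : ∀ {q}, q ∈ Out G c → G.Adj l q → Anti G {q} {w} := fun hq a =>
    anti_ss (C.ne hw.1 hq) fun b => lw (C.one hq hl.1 hw.1 a.symm b)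
  have wE : ¬ Sees G w (seg f 1 (n - 1)) := by
    rintro ⟨x, ⟨s, s1, s2, rfl⟩, a⟩
    by_cases hs : s + 1 < n
    · refine C.ehf.theta lw (C.st l hl.1 w hw.1) (conn_singleton c) (cZ.ins fn)
        (hf.conn_seg (Nat.zero_le s) (by omega)) (anti_c (Set.insert_subset oz oZ))
        (anti_c (oS _ _ (by omega))) (anti_il ?_ (aZS 0 s (by omega))) (cN_adj cl.symm)
        (cN_adj cw.symm) (cN_il lz) (cN_ir (Or.inr wZ))
        (Or.inr ⟨_, apply_mem_seg le_rfl (Nat.zero_le _), f0 ▸ e⟩)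
        (Or.inr ⟨_, apply_mem_seg (Nat.zero_le _) le_rfl, a⟩)
      rw [← seg_self f n]
      exact (hf.anti_seg hs le_rfl).symm
    · have os := C.DO (fD s (by omega) (by omega))
      have hs' : s = n - 1 := by omega
      refine C.ehf.theta (C.ne hw.1 oz) ((nb oz lz).not_adj rfl rfl) cZ (conn_singleton (f s))
        ((conn_singleton c).ins (cN_adj cl.symm)) (seg_self f s ▸ aZS s s (by omega))
        (anti_ir alZ.symm (anti_c oZ).symm)
        (anti_ir (anti_ss (C.ne hl.1 os) fun b => lw (C.one os hl.1 hw.1 b a.symm))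
          (anti_ss os.1 os.2).symm) fn (Or.inr wZ) (cN_adj ?_) (cN_adj a) (cN_il lz.symm)
        (cN_ir (cN_adj cw.symm))
      rw [hs']
      exact hf.adj_pred hn le_rfl
  have awE := C.anti_w hw.1 oE wE
  have yz : y ≠ f n := fun a => hy.2.1 (a ▸ zD)
  have yz' : y' ≠ f n := fun a => hy'.2.1 (a ▸ zD)
  have aly : Anti G {y'} {l} := anti_ss (C.ne hl.1 oy') fun a => ly a.symm
  by_cases hE : Sees G y' (seg f 1 (n - 1))
  · have hn2 : 2 ≤ n := by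
      obtain ⟨x, ⟨k, k1, k2, -⟩, -⟩ := hE
      omega
    have cE := hf.conn_seg (i := 1) (j := n - 1) (by omega) (by omega)
    by_cases lE : Sees G l (seg f 1 (n - 1))
    · exact C.ehf.theta oy'.1 oy'.2 C.cY (cZ.ins (Or.inr wZ)) (cE.ins (Or.inr lE)) (C.aYA' hw sZ)
        (C.aYA' hl sE) (anti_il (anti_ir alw.symm awE) (anti_ir alZ.symm aZE)) C.cYc (C.bdY hy')
        (cN_il cw) (cN_ir (Or.inr yZ)) (cN_il cl) (cN_ir (Or.inr hE))
    have alE := C.anti_w hl.1 oE lE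
    by_cases a1 : G.Adj y y'
    · by_cases a2 : G.Adj (f n) y'
      · refine hf.not_adj (i := 0) (j := n) (by omega) le_rfl ?_
        rw [f0]
        exact C.ehf.adj_of_common (C.ne hl.1 oy') (fun a => ly a.symm) a1.symm e a2.symm lz yz
      · exact C.ehf.theta yz'.symm a2 cZ cE
          ((C.cY.ins C.cYc).ins (cN_il cl.symm)) aZE
          (anti_ir alZ.symm (anti_ir (anti_c oZ).symm (C.aD' sZ).symm))
          (anti_ir alE.symm (anti_ir (anti_c oE).symm (C.aD' sE).symm)) fn (Or.inr yZ)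
          (Or.inr ⟨_, apply_mem_seg (by omega) le_rfl, hf.adj_pred hn le_rfl⟩) (Or.inr hE)
          (cN_il lz.symm) (cN_ir (cN_ir (C.bdY hy')))
    · exact C.ehf.theta hne a1 cY cE
        (((cZ.ins (Or.inr wZ)).ins (cN_il cw)).ins (cN_il cl.symm)) (C.aYD sE)
        (anti_ir (C.aYw hl) (anti_ir C.aYc (C.aYA hw sZ)))
        (anti_ir alE.symm (anti_ir (anti_c oE).symm (anti_ir awE.symm aZE.symm))) (Or.inr sy)
        (Or.inr sy') (Or.inr ⟨_, apply_mem_seg le_rfl (by omega), f0 ▸ hf.adj_succ hn⟩) (Or.inr hE)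
        (cN_il e.symm) (cN_ir (cN_ir (cN_ir (Or.inr yZ))))
  · have hz : {f n} ⊆ D := Set.singleton_subset_iff.2 zD
    refine C.ehf.k4 (B₁ := Y) (B₂ := Z) (B₃ := seg f 1 (n - 1)) (B₄ := {c}) (u₁₂ := y') (u₁₃ := y)
      (u₁₄ := w₁) (u₂₃ := f n) (u₂₄ := w) (u₃₄ := l) (C.aYD sZ) (C.aYD sE) C.aYc aZE
      (anti_c oZ).symm (anti_c oE).symm
      ((anti_s (fun a => hy'.2.1 (sE a)) hE).union_right (anti_ss oy'.1 oy'.2).symm)
      (ayZ.union_right (anti_ss oy.1 oy.2).symm) ((C.awD sZ).union_right (C.awD sE))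
      ((C.aYD hz).symm.union_right (anti_ss oz.1 oz.2).symm) ((C.aYw hw).symm.union_right awE)
      ((C.aYw hl).symm.union_right alZ) aly (nb oy e) (C.awD hz)
      ⟨hne.symm, C.ne C.wM oy', C.ne C.wM oy⟩ ⟨yz', C.ne hw.1 oy', C.ne hw.1 oz⟩
      ⟨yz, C.ne hl.1 oy, C.ne hl.1 oz⟩ ⟨C.g_ne hw, C.g_ne hl, lw.symm⟩
      (Zone.of_sees cY sy' sy sw) (Zone.of_sees cZ yZ zs wZ)
      ⟨⟨n - 0, ?_⟩, ⟨1, IP.of_adj e.symm _⟩, ⟨1, IP.of_adj lz.symm _⟩⟩
      (Zone.of_conn (conn_singleton c) (cN_adj (C.adj _ C.wM).symm) (cN_adj cw.symm)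
        (cN_adj cl.symm))
    rw [← f0]
    exact hf.ip_seg (Nat.zero_le n) le_rfl

theorem a0_comp {l y w p : V} (hl : Good G M Y D l) (hy : y ∈ Bd G U D) (e : G.Adj l y)
    (hp : p ∈ D) (lp : ¬ G.Adj l p) (hw : Good G M Y D w)
    (wZ : Sees G w (comp G {q | q ∈ D ∧ ¬ G.Adj l q} p)) :
    Anti G {y} (comp G {q | q ∈ D ∧ ¬ G.Adj l q} p) ∧
      ∀ y' ∈ Bd G U D, Sees G y' (comp G {q | q ∈ D ∧ ¬ G.Adj l q} p) → G.Adj l y' := by
  have cZ := conn_comp (G := G) (U := {q | q ∈ D ∧ ¬ G.Adj l q}) (v := p) ⟨hp, lp⟩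
  have sZ : comp G {q | q ∈ D ∧ ¬ G.Adj l q} p ⊆ D := fun q hq => (comp_subset _ _ hq).1
  have lZ : ¬ Sees G l (comp G {q | q ∈ D ∧ ¬ G.Adj l q} p) :=
    fun ⟨q, hq, a⟩ => (comp_subset _ _ hq).2 a
  refine ⟨C.a0_miss hl hy e cZ sZ lZ hw wZ, fun y' hy' a =>
    C.a0 hl hy e cZ sZ lZ (fun q hq b => ?_) hw wZ hy' a⟩
  by_cases a : G.Adj l q
  · exact Or.inr a
  · exact Or.inl (mem_comp_of_sees ⟨hq, a⟩ b)

theorem a1 {l y : V} (hl : Good G M Y D l) (hy : y ∈ Bd G U D) (e : G.Adj l y) :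
    ∃ F : Finset V, F.card ≤ 1 ∧
      ∀ w, (Good G M Y D w ∧ w ≠ l ∧ ∃ y' ∈ Bd G U D, G.Adj w y') → w ∈ F := by
  refine exists_one fun a b ha hb => ?_
  obtain ⟨v, hv, ev⟩ := hy.2.2
  obtain ⟨p, hp, ep⟩ := ha.1.2.1
  obtain ⟨n, f, hf, fD, f0, ⟨s, hs, sl, es⟩, -, fQ⟩ := C.cD.exists_min_path (P := {v})
    (Q := {q | ∃ s, Good G M Y D s ∧ s ≠ l ∧ G.Adj s q}) ⟨v, hv, rfl⟩ ⟨p, hp, a, ha.1, ha.2.1, ep⟩
  rw [Set.mem_singleton_iff] at f0
  have key : ∀ i, (Good G M Y D i ∧ i ≠ l ∧ ∃ y' ∈ Bd G U D, G.Adj i y') → i = s := by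
    rintro i ⟨hi, il, y', hy', e'⟩
    by_contra is
    have sub : seg f 0 n ⊆ {q | q ∈ D ∧ ¬ G.Adj i q} := seg_subset fun k _ hk => ⟨fD k hk, fun a => by
      rcases hk.lt_or_eq with hk | rfl
      · exact fQ k hk ⟨i, hi, il, a⟩
      · exact is (C.one (C.DO (fD k le_rfl)) hi.1 hs.1 a.symm es.symm)⟩
    have h0 : v ∈ seg f 0 n := f0 ▸ apply_mem_seg le_rfl (Nat.zero_le _)
    have sub' := (hf.conn_seg (Nat.zero_le n) le_rfl).subset_comp_of_mem sub h0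
    have := (C.a0_comp hi hy' e' hv (sub h0).2 hs
      ⟨_, sub' (apply_mem_seg (Nat.zero_le _) le_rfl), es⟩).2 y hy ⟨v, sub' h0, ev⟩
    exact il (C.one (C.bdO hy) hi.1 hl.1 this.symm e.symm)
  rw [key a ha, key b hb]

end Pre

theorem Cfg.caseA {c w₁ u₁ : V} {M : Finset V} {h m : ℕ} {U Y D : Set V}
    (C : Cfg G c M h w₁ u₁ U Y D) (hm : m + 1 ≤ h) (hM : h + 2 + m ≤ M.card) {l y : V}
    (hl : Good G M Y D l) (hy : y ∈ Bd G U D) (e : G.Adj l y) : Split G c M m := by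
  classical
  refine ⟨{w₁, l}, ∅, ?_, Finset.card_le_two, alpha_empty 4, fun X cX oX hT _ => ?_⟩
  · intro x hx
    rcases Finset.mem_insert.1 hx with rfl | hx
    · exact C.wM
    · exact Finset.mem_singleton.1 hx ▸ hl.1
  have lX := hT l (by simp)
  rcases C.far cX oX (hT w₁ (by simp)) with hU | hL
  swap
  · exact hL.mi (by omega)
  by_cases hp : ∃ w, Good G M Y D w ∧ ∃ p ∈ X, p ∈ D ∧ G.Adj w p
  · obtain ⟨w, hw, p, pX, pD, ep⟩ := hp
    have lp : ¬ G.Adj l p := fun a => lX ⟨p, pX, a⟩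
    have pZ : p ∈ comp G {q | q ∈ D ∧ ¬ G.Adj l q} p := mem_comp_self ⟨pD, lp⟩
    obtain ⟨h1, h2⟩ := C.a0_comp hl hy e pD lp hw ⟨p, pZ, ep⟩
    refine (C.mi hy (conn_comp pZ.1) (fun q hq => (comp_subset _ _ hq).1) h1).mono
      (closed cX pX pZ fun q hq a => ?_) (by omega)
    by_cases qD : q ∈ D
    · exact mem_comp_of_sees ⟨qD, fun b => lX ⟨q, hq, b⟩⟩ a
    · exact (lX ⟨q, hq, h2 q ⟨hU hq, qD, a.mono fun q hq => (comp_subset _ _ hq).1⟩ a⟩).elim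
  · obtain ⟨E, cE, hE⟩ := C.big
    obtain ⟨F, cF, hF⟩ := C.priv
    obtain ⟨F', cF', hF'⟩ := C.a1 hl hy e
    refine Lo.mi (r := h + 2) ⟨E ∪ F ∪ F', ?_, fun w hw a => ?_⟩ (by omega)
    · have := Finset.card_union_le (E ∪ F) F'
      have := Finset.card_union_le E F
      omega
    · by_contra hc
      simp only [Finset.mem_union, not_or] at hc
      have g := hE w hw hc.1.1
      obtain ⟨p, pX, ep⟩ := a
      refine hp ⟨w, g, p, pX, hF w g (fun y' hy' b => hc.2 (hF' w ⟨g, ?_, y', hy', b⟩)) hc.1.2 p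
        (hU pX) ep, ep⟩
      rintro rfl
      exact lX ⟨p, pX, ep⟩

end Pool.Agent.Ehf.Star
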