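import Pool.Agent.MP_3ad207_lc.H88.StarC

/-! Star case, part D: no good white is adjacent to the boundary; arms. -/

set_option autoImplicit false

namespace Pool.Agent.Ehf.Star

variable {V : Type} {G : SimpleGraph V}

/-- a component of `D - N(y)` -/
structure Cp (G : SimpleGraph V) (D : Set V) (y : V) (P : Set V) : Prop where
  cn : Conn G P
  sD : P ⊆ D
  ay : Anti G {y} P
  cl : ∀ q ∈ D, Sees G q P → q ∈ P ∨ G.Adj y q

/-- an arm from the neighbour `v` of `y` through `P` to the good white `w` -/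
structure Arm (G : SimpleGraph V) (M : Finset V) (Y D : Set V) (y v : V) (P : Set V) (w : V) :
    Prop where
  vD : v ∈ D
  yv : G.Adj y v
  g : Good G M Y D w
  alt : (P = ∅ ∧ G.Adj v w) ∨ (Cp G D y P ∧ Sees G v P ∧ Sees G w P)

/-- case (b) -/
structure CB (G : SimpleGraph V) (c : V) (M : Finset V) (h : ℕ) (w₁ u₁ : V) (U Y D : Set V) (y : V) :
    Prop extends Cfg G c M h w₁ u₁ U Y D where
  yB : y ∈ Bd G U D
  nev : ∀ w, Good G M Y D w → ∀ y' ∈ Bd G U D, ¬ G.Adj w y'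

/-- `X` sees at most `r` good whites -/
def LoG (G : SimpleGraph V) (M : Finset V) (Y D : Set V) (r : ℕ) (X : Set V) : Prop :=
  ∃ E : Finset V, E.card ≤ r ∧ ∀ w, Good G M Y D w → Sees G w X → w ∈ E

theorem Cp.sub {D P Q : Set V} {y : V} (hP : Cp G D y P) (hQ : Cp G D y Q) (h : Touch G P Q) :
    P ⊆ Q := closed' hP.cn h fun q hq e =>
  (hQ.cl q (hP.sD hq) e).resolve_right (hP.ay.not_adj rfl hq)

theorem cp_comp {D : Set V} {y p : V} (hy : y ∉ D) (hp : p ∈ D) (e : ¬ G.Adj y p) :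
    Cp G D y (comp G {q | q ∈ D ∧ ¬ G.Adj y q} p) ∧ p ∈ comp G {q | q ∈ D ∧ ¬ G.Adj y q} p := by
  have h : p ∈ {q | q ∈ D ∧ ¬ G.Adj y q} := ⟨hp, e⟩
  refine ⟨⟨conn_comp h, fun q hq => (comp_subset _ _ hq).1, anti_s
    (fun a => hy (comp_subset _ _ a).1) fun ⟨q, hq, a⟩ => (comp_subset _ _ hq).2 a,
    fun q hq b => ?_⟩, mem_comp_self h⟩
  by_cases a : G.Adj y q
  · exact Or.inr a
  · exact Or.inl (mem_comp_of_sees ⟨hq, a⟩ b)

namespace Arm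

variable {M : Finset V} {Y D P : Set V} {y v w : V} (a : Arm G M Y D y v P w)
include a

theorem cp {q : V} (h : Sees G q P) : Cp G D y P ∧ Sees G v P ∧ Sees G w P :=
  a.alt.resolve_left fun e => by
    obtain ⟨x, hx, -⟩ := h
    exact (e.1 ▸ hx : x ∈ (∅ : Set V))

theorem sD : P ⊆ D := a.alt.elim (fun e => e.1 ▸ Set.empty_subset _) fun e => e.1.sD

theorem ay : Anti G {y} P := a.alt.elim (fun e => e.1 ▸ anti_empty_right) fun e => e.1.ay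

theorem cP : P = ∅ ∨ Conn G P := a.alt.imp (fun e => e.1) fun e => e.1.cn

theorem cA : Conn G (insert w P) := by
  rcases a.alt with e | e
  · rw [e.1]
    simpa using conn_singleton w
  · exact e.1.cn.ins (Or.inr e.2.2)

theorem vA : v ∈ cN G (insert w P) := a.alt.elim (fun e => cN_il e.2) fun e => cN_ir (Or.inr e.2.1)

theorem anti_cp {Q : Set V} (hQ : Cp G D y Q) (h : ¬ Sees G w Q) : Anti G P Q := by
  rcases a.alt with e | e
  · exact e.1 ▸ anti_empty_left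
  · exact not_touch.1 fun t => h (e.2.2.mono (e.1.sub hQ t))

end Arm

namespace CB

variable {c w₁ u₁ y : V} {M : Finset V} {h : ℕ} {U Y D : Set V} (C : CB G c M h w₁ u₁ U Y D y)
include C

theorem cp_port {P : Set V} (hP : Cp G D y P) : ∃ v ∈ D, G.Adj y v ∧ Sees G v P := by
  obtain ⟨p, hp⟩ := hP.cn.nonempty
  obtain ⟨v, hv, e⟩ := C.yB.2.2
  obtain ⟨q, h1, h2, h3⟩ := exit C.cD (hP.sD hp) hp fun s => hP.ay.not_adj rfl (s hv) e
  exact ⟨q, h1, (hP.cl q h1 h2).resolve_left h3, h2⟩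

theorem arm_ex {w : V} (hw : Good G M Y D w) : ∃ v P, Arm G M Y D y v P w := by
  obtain ⟨p, hp, e⟩ := hw.2.1
  by_cases a : G.Adj y p
  · exact ⟨p, ∅, hp, a, hw, Or.inl ⟨rfl, e.symm⟩⟩
  · obtain ⟨h1, h2⟩ := cp_comp C.yB.2.1 hp a
    obtain ⟨v, h3, h4, h5⟩ := C.cp_port h1
    exact ⟨v, _, h3, h4, hw, Or.inr ⟨h1, h5, p, h2, e⟩⟩

theorem bw {w y' : V} (hw : Good G M Y D w) (hy : y' ∈ Bd G U D) : Anti G {y'} {w} :=
  anti_ss (C.ne hw.1 (C.bdO hy)) fun e => C.nev w hw y' hy e.symm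

variable {v v' w w' : V} {P P' : Set V}

theorem ind (a : Arm G M Y D y v P w) (a' : Arm G M Y D y v' P' w') (hne : w ≠ w')
    (h1 : ¬ Sees G w' P) (h2 : ¬ Sees G w P') : Anti G (insert w P) (insert w' P') := by
  refine anti_il (anti_ir (C.anti_ww a.g.1 a'.g.1 hne) (C.anti_w a.g.1 (a'.sD.trans C.DO) h2))
    (anti_ir (C.anti_w a'.g.1 (a.sD.trans C.DO) h1).symm ?_)
  rcases a'.alt with e | e
  · exact e.1 ▸ anti_empty_right
  · exact a.anti_cp e.1 h2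

theorem ayA (a : Arm G M Y D y v P w) : Anti G {y} (insert w P) := anti_ir (C.bw a.g C.yB) a.ay

theorem vY (hv : v ∈ D) : Anti G {v} (insert w₁ Y) := (C.aD' (Set.singleton_subset_iff.2 hv)).symm

theorem vY' (hv : v ∈ D) : Anti G {v} Y := (C.aYD (Set.singleton_subset_iff.2 hv)).symm

theorem t12 (a : Arm G M Y D y v P w) (a' : Arm G M Y D y v' P' w')
    (i : Anti G (insert w P) (insert w' P')) :
    Anti G {v} (insert w' P') ∧ Anti G {v'} (insert w P) ∧ G.Adj v v' :=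
  center C.ehf (C.bdO C.yB) C.cY a.cA a'.cA (C.aYA' a.g a.sD) (C.aYA' a'.g a'.sD) i C.cYc
    (cN_il (C.adj w a.g.1)) (cN_il (C.adj w' a'.g.1)) (C.bdY C.yB) (C.ayA a) (C.ayA a') a.yv a'.yv
    (C.DO a.vD) (C.DO a'.vD) (C.vY a.vD) (C.vY a'.vD) a.vA a'.vA

theorem t3 (a : Arm G M Y D y v P w) (a' : Arm G M Y D y v' P' w')
    (i : Anti G (insert w P) (insert w' P')) {y' : V} (hy : y' ∈ Bd G U D) (e : Sees G y' P) :
    G.Adj y' v' := by
  by_contra hna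
  obtain ⟨h1, h2, h3⟩ := C.t12 a a' i
  obtain ⟨hP, vP, wP⟩ := a.cp e
  have oy := C.bdO C.yB
  have oy' := C.bdO hy
  have ov := C.DO a.vD
  have ov' := C.DO a'.vD
  have hne : y ≠ y' := fun b => a.ay.not_sees rfl (b ▸ e)
  obtain ⟨cY, sy, sy', sw⟩ := C.two C.yB hy hne
  have h4 : Anti G {y'} (insert w' P') := not_touch.1 fun t =>
    C.ehf.theta oy'.1 oy'.2 C.cY a.cA a'.cA (C.aYA' a.g a.sD) (C.aYA' a'.g a'.sD) i C.cYc
      (C.bdY hy) (cN_il (C.adj w a.g.1)) (cN_ir (Or.inr e)) (cN_il (C.adj w' a'.g.1))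
      (touch_singleton_left.1 t)
  have sP : P ⊆ insert w P := Set.subset_insert _ _
  have nd : ∀ {x z}, x ∈ Bd G U D → z ∈ D → x ≠ z := fun hx hz b => hx.2.1 (b ▸ hz)
  exact C.ehf.k4 (B₁ := Y) (B₂ := P) (B₃ := ∅) (B₄ := insert c (insert w' P')) (u₁₂ := y')
    (u₁₃ := y) (u₁₄ := w₁) (u₂₃ := v) (u₂₄ := w) (u₃₄ := v') (C.aYD a.sD) anti_empty_right
    (anti_ir C.aYc (C.aYA a'.g a'.sD)) anti_empty_right
    (anti_ir (anti_c (a.sD.trans C.DO)).symm (i.mono sP le_rfl)) anti_empty_left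
    (anti_empty_right.union_right (anti_ir (anti_ss oy'.1 oy'.2).symm h4))
    (a.ay.union_right (anti_ir (anti_ss oy.1 oy.2).symm (C.ayA a')))
    ((C.awD a.sD).union_right anti_empty_right)
    ((C.vY' a.vD).union_right (anti_ir (anti_ss ov.1 ov.2).symm h1))
    ((C.aYw a.g).symm.union_right anti_empty_right) ((C.vY' a'.vD).union_right (h2.mono le_rfl sP))
    (anti_ss (nd hy a'.vD) hna) (C.bw a.g C.yB) (C.awD (Set.singleton_subset_iff.2 a.vD))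
    ⟨hne.symm, C.ne C.wM oy', C.ne C.wM oy⟩ ⟨nd hy a.vD, C.ne a.g.1 oy', C.ne a.g.1 ov⟩
    ⟨a.yv.ne, a'.yv.ne, h3.ne⟩ ⟨C.g_ne a.g, (C.ne C.wM ov').symm, (C.ne a.g.1 ov').symm⟩
    (Zone.of_sees cY sy' sy sw) (Zone.of_sees hP.cn e vP wP) (Zone.of_triangle _ a.yv a'.yv h3)
    (Zone.of_conn (a'.cA.ins (cN_il (C.adj w' a'.g.1))) (cN_il (C.adj _ C.wM).symm)
      (cN_il (C.adj w a.g.1).symm) (cN_ir a'.vA))

theorem t4 (a : Arm G M Y D y v P w) (a' : Arm G M Y D y v' P' w')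
    (i : Anti G (insert w P) (insert w' P')) : Clq G {q | q ∈ Bd G U D ∧ Sees G q P} := by
  intro x hx z hz hne
  by_contra hna
  obtain ⟨cY, sx, sz, -⟩ := C.two hx.1 hz.1 hne
  exact C.ehf.theta hne hna (conn_singleton v') cY (a.cp hx.2).1.cn (C.vY' a'.vD)
    ((C.t12 a a' i).2.1.mono le_rfl (Set.subset_insert _ _)) (C.aYD a.sD)
    (cN_adj (C.t3 a a' i hx.1 hx.2)) (cN_adj (C.t3 a a' i hz.1 hz.2)) (Or.inr sx) (Or.inr sz)
    (Or.inr hx.2) (Or.inr hz.2)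

theorem w1_sub : ({w₁} : Finset V) ⊆ M := Finset.singleton_subset_iff.2 C.wM

/-- (B1) -/
theorem b1 {Q : Set V} (hQ : Cp G D y Q) (hh : 3 ≤ h) (hb : ¬ LoG G M Y D h Q) :
    Split G c M (h - 3) := by
  classical
  have oQ := hQ.sD.trans C.DO
  have pick : ∀ F : Finset V, F.card ≤ h → ∃ w, Good G M Y D w ∧ Sees G w Q ∧ w ∉ F := by
    intro F hF
    by_contra hc
    push Not at hc
    exact hb ⟨F, hF, hc⟩
  have g1 : ∀ X, Conn G X → X ⊆ Out G c → Anti G X Q → Mi G M (h - 3) X := by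
    intro X cX oX aX
    obtain ⟨F, cF, hF⟩ := C.w2' cX (Or.inr hQ.cn) oX oQ aX
    have h1 : h < (M.filter fun w => Sees G w Q).card := by
      by_contra hc
      obtain ⟨w, h1, h2, h3⟩ := pick _ (not_lt.1 hc)
      exact h3 (Finset.mem_filter.2 ⟨h1.1, h2⟩)
    refine ⟨(M.filter fun w => Sees G w Q) \ F, Finset.sdiff_subset.trans (Finset.filter_subset _ _),
      ?_, fun w hw e => ?_⟩
    · have := Finset.le_card_sdiff F (M.filter fun w => Sees G w Q)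
      omega
    · obtain ⟨h2, h3⟩ := Finset.mem_sdiff.1 hw
      exact h3 (hF w ⟨(Finset.mem_filter.1 h2).1, e, (Finset.mem_filter.1 h2).2⟩)
  have mQ := C.mi C.yB hQ.cn hQ.sD hQ.ay
  obtain ⟨w', g', wQ⟩ : ∃ w', Good G M Y D w' ∧ ¬ Sees G w' Q := by
    obtain ⟨E, h1, h2, h3⟩ := C.min y C.yB Q hQ.cn hQ.sD hQ.ay
    obtain ⟨E', h4, h5⟩ := C.big
    obtain ⟨x, h6, h7⟩ := exists_out (E := E) (F := E') (by omega)
    have g := h5 x (h1 h6) h7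
    exact ⟨x, g, fun e => h3 x h6 ⟨g, e, C.nev x g y C.yB⟩⟩
  obtain ⟨v', P', a'⟩ := C.arm_ex g'
  have aPQ := a'.anti_cp hQ wQ
  have oP := a'.sD.trans C.DO
  obtain ⟨F1, cF1, hF1⟩ := C.w2' hQ.cn a'.cP oQ oP aPQ.symm
  have mk : ∀ v ∈ D, G.Adj y v → Sees G v Q → ∀ w, Good G M Y D w → Sees G w Q → w ∉ F1 →
      Arm G M Y D y v Q w ∧ Anti G (insert w Q) (insert w' P') := by
    intro v h1 h2 h3 w h4 h5 h6
    have a : Arm G M Y D y v Q w := ⟨h1, h2, h4, Or.inr ⟨hQ, h3, h5⟩⟩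
    exact ⟨a, C.ind a a' (fun e => wQ (e ▸ h5)) wQ fun e => h6 (hF1 w ⟨h4.1, h5, e⟩)⟩
  obtain ⟨w, gw, sw, nw⟩ := pick F1 (by omega)
  obtain ⟨v0, v1, v2, v3⟩ := C.cp_port hQ
  have k3 := C.t4 (mk v0 v1 v2 v3 w gw sw nw).1 a' (mk v0 v1 v2 v3 w gw sw nw).2
  have sQ : Q ⊆ insert w Q := Set.subset_insert _ _
  have vQ : Anti G {v'} Q :=
    (C.t12 (mk v0 v1 v2 v3 w gw sw nw).1 a' (mk v0 v1 v2 v3 w gw sw nw).2).2.1.mono le_rfl sQ
  have inU : ∀ X, Conn G X → X ⊆ Out G c → ¬ Sees G w₁ X → Touch G X Q → X ⊆ U :=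
    fun X cX oX wX t => C.sub_U cX oX wX (t.mono le_rfl (hQ.sD.trans C.DU))
  by_cases hk : Clq G {q | q ∈ D ∧ G.Adj y q ∧ Sees G q Q}
  · refine ⟨{w₁}, _, C.w1_sub, by simp,
      (alpha_union (clq_alpha hk) (clq_alpha k3)).mono le_rfl (by omega), fun X cX oX hT hK => ?_⟩
    by_cases t : Touch G X Q
    swap
    · exact g1 X cX oX (not_touch.1 t)
    have hU := inU X cX oX (hT _ (by simp)) t
    refine mQ.mono (closed' cX t fun q hq e => ?_) (by omega)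
    by_contra hn
    refine Set.disjoint_left.1 hK hq ?_
    by_cases qD : q ∈ D
    · exact Or.inl ⟨qD, (hQ.cl q qD e).resolve_left hn, e⟩
    · exact Or.inr ⟨⟨hU hq, qD, e.mono hQ.sD⟩, e⟩
  simp only [Clq, not_forall] at hk
  obtain ⟨v, hv, v'', hv'', hne, hna⟩ := hk
  have k1 : Clq G {q | q ∈ D ∧ G.Adj y q ∧ Sees G q P'} := clq_common C.ehf hne hna fun q hq => by
    have b : Arm G M Y D y q P' w' :=
      ⟨hq.1, hq.2.1, g', Or.inr ⟨(a'.cp hq.2.2).1, hq.2.2, (a'.cp hq.2.2).2.2⟩⟩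
    obtain ⟨b1, b2⟩ := mk v hv.1 hv.2.1 hv.2.2 w gw sw nw
    obtain ⟨b3, b4⟩ := mk v'' hv''.1 hv''.2.1 hv''.2.2 w gw sw nw
    exact ⟨(C.t12 b1 b b2).2.2, (C.t12 b3 b b4).2.2⟩
  have k2 := C.t4 a' (mk v0 v1 v2 v3 w gw sw nw).1 (mk v0 v1 v2 v3 w gw sw nw).2.symm
  have ov' := C.DO a'.vD
  have k4 : Clq G {q | q ∈ Out G c ∧ Anti G {q} (insert w' P') ∧ G.Adj v' q ∧ ∃ x ∈ M, ∃ Φ,
      ¬ Sees G x Q ∧ Anti G {x} (insert w' P') ∧ ¬ G.Adj v' x ∧ (Φ = ∅ ∨ Conn G Φ) ∧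
      Conn G (insert x Φ) ∧ Φ ⊆ Out G c ∧ Anti G Φ (insert w' P') ∧ Anti G {v'} Φ ∧ Anti G Φ Q ∧
      q ∈ cN G (insert x Φ)} := clq_common C.ehf hne hna (by
    rintro q ⟨q1, q2, q3, x, xM, Φ, x1, x2, x3, p1, p2, p3, p4, p5, p6, p7⟩
    obtain ⟨F2, cF2, hF2⟩ := C.w2' hQ.cn p1 oQ p3 p6.symm
    obtain ⟨s, gs, ss, ns⟩ := pick (F1 ∪ F2) ((Finset.card_union_le _ _).trans (by omega))
    rw [Finset.mem_union, not_or] at ns
    have key : ∀ u, u ∈ {q | q ∈ D ∧ G.Adj y q ∧ Sees G q Q} → G.Adj u q := fun u hu => by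
      obtain ⟨b, i⟩ := mk u hu.1 hu.2.1 hu.2.2 s gs ss ns.1
      obtain ⟨t1, t2, t3⟩ := C.t12 b a' i
      exact (center C.ehf ov' a'.cA p2 b.cA (anti_il x2 p4).symm i.symm
        (anti_il (anti_ir (C.anti_ww xM gs.1 fun e => x1 (e ▸ ss)) (C.anti_w xM oQ x1))
          (anti_ir (C.anti_w gs.1 p3 fun e => ns.2 (hF2 s ⟨gs.1, ss, e⟩)).symm p6))
        (cN_il (C.adj _ g'.1)) (cN_il (C.adj _ xM)) (cN_il (C.adj _ gs.1)) a'.vA
        (anti_ir (anti_ss (C.ne xM ov') x3) p5) t2 q3 t3.symm q1 (C.DO hu.1) q2 t1 p7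
        b.vA).2.2.symm
    exact ⟨key v hv, key v'' hv''⟩)
  refine ⟨{w₁, w'}, _, ?_, Finset.card_le_two, alpha_union (alpha_union (alpha_union (clq_alpha k1)
    (clq_alpha k2)) (clq_alpha k3)) (clq_alpha k4), fun X cX oX hT hK => ?_⟩
  · intro x hx
    rcases Finset.mem_insert.1 hx with rfl | hx
    · exact C.wM
    · exact Finset.mem_singleton.1 hx ▸ g'.1
  by_cases t : Touch G X Q
  swap
  · exact g1 X cX oX (not_touch.1 t)
  have hU := inU X cX oX (hT _ (by simp)) t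
  have wX := hT w' (by simp)
  have nK := fun q (hq : q ∈ X) => Set.disjoint_left.1 hK hq
  simp only [Set.mem_union, not_or] at nK
  have cZ := cX.un hQ.cn t
  have oZ : X ∪ Q ⊆ Out G c := Set.union_subset oX oQ
  obtain ⟨q0, hq0⟩ := hQ.cn.nonempty
  have aZP : Anti G (X ∪ Q) P' := not_touch.1 fun t' => by
    refine aPQ.notMem (closed' cZ t' (fun q hq e => ?_) (Or.inr hq0)) hq0
    rcases hq with hq | hq
    · by_cases qD : q ∈ D
      · exact ((a'.cp e).1.cl q qD e).resolve_right fun b => (nK q hq).1.1.1 ⟨qD, b, e⟩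
      · exact ((nK q hq).1.1.2 ⟨⟨hU hq, qD, e.mono a'.sD⟩, e⟩).elim
    · exact (aPQ.symm.not_sees hq e).elim
  have aZ : Anti G (X ∪ Q) (insert w' P') :=
    anti_ir (C.anti_w g'.1 oZ fun e => (sees_union.1 e).elim wX wQ).symm aZP
  have vZ : v' ∉ X ∪ Q := fun e => anti_iff.1 aZ _ e a'.vA
  obtain ⟨F2, cF2, hF2⟩ := C.w2' cZ a'.cP oZ oP aZP
  obtain ⟨F3, cF3, hF3⟩ := exists_one (p := fun x => x ∈ M ∧ G.Adj v' x)
    fun a b ha hb => C.one ov' ha.1 hb.1 ha.2 hb.2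
  refine mQ.drop (k := 2) (F2 ∪ F3) ((Finset.card_union_le _ _).trans (by omega)) (by omega)
    fun x xM x1 x2 => ?_
  by_contra hc
  rw [Finset.mem_union, not_or] at hc
  have x3 : ¬ G.Adj v' x := fun e => hc.2 (hF3 x ⟨xM, e⟩)
  have x4 : Anti G {x} (insert w' P') := anti_ir (C.anti_ww xM g'.1 fun e => wX (e ▸ x2))
    (C.anti_w xM oP fun e => hc.1 (hF2 x ⟨xM, x2.mono Set.subset_union_left, e⟩))
  obtain ⟨p, pX, ep⟩ := x2
  by_cases vp : G.Adj v' p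
  · exact (nK p pX).2 ⟨oX pX, anti_pt aZ (Or.inl pX), vp, x, xM, ∅, x1, x4, x3, Or.inl rfl,
      by simpa using conn_singleton x, Set.empty_subset _, anti_empty_left, anti_empty_right,
      anti_empty_left, cN_il ep.symm⟩
  obtain ⟨hΦ, pΦ⟩ := cp_comp vZ (Or.inl pX) vp
  have aΦ : Anti G (comp G {q | q ∈ X ∪ Q ∧ ¬ G.Adj v' q} p) Q := not_touch.1 fun t' => by
    refine x1 ⟨p, closed' hΦ.cn t' (fun q hq e => ?_) pΦ, ep⟩
    rcases hΦ.sD hq with hq' | hq'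
    · by_cases qD : q ∈ D
      · refine (hQ.cl q qD e).resolve_right fun b => hΦ.ay.not_adj rfl hq ?_
        obtain ⟨b1, b2⟩ := mk q qD b e w gw sw nw
        exact (C.t12 b1 a' b2).2.2.symm
      · exact ((nK q hq').1.2 ⟨⟨hU hq', qD, e.mono hQ.sD⟩, e⟩).elim
    · exact hq'
  obtain ⟨q, q1, q2, q3⟩ := exit cZ (Or.inl pX) pΦ fun s => aΦ.notMem (s (Or.inr hq0)) hq0
  have qX : q ∈ X := q1.resolve_right fun e => aΦ.symm.not_sees e q2
  exact (nK q qX).2 ⟨oX qX, anti_pt aZ q1, (hΦ.cl q q1 q2).resolve_left q3, x, xM, _, x1, x4, x3,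
    Or.inr hΦ.cn, hΦ.cn.ins (Or.inr ⟨p, pΦ, ep⟩), hΦ.sD.trans oZ, aZ.mono hΦ.sD le_rfl, hΦ.ay, aΦ,
    cN_ir (Or.inr q2)⟩

end CB

end Pool.Agent.Ehf.Star
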