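import Pool.Agent.MP_3ad207_lc.H88.StarD

/-! Star case, part E: case B2 and the SPLIT theorem. -/

set_option autoImplicit false

namespace Pool.Agent.Ehf.Star

variable {V : Type} {G : SimpleGraph V}

theorem Arm.lo {M : Finset V} {Y D P : Set V} {y v w : V} {r : ℕ} (a : Arm G M Y D y v P w)
    (hb : ∀ Q, Cp G D y Q → LoG G M Y D r Q) : LoG G M Y D r P := by
  rcases a.alt with e | e
  · exact ⟨∅, by simp, fun x _ ⟨_, hz, _⟩ => (e.1 ▸ hz : _ ∈ (∅ : Set V)).elim⟩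
  · exact hb P e.1

namespace CB

variable {c w₁ u₁ y : V} {M : Finset V} {h : ℕ} {U Y D : Set V} (C : CB G c M h w₁ u₁ U Y D y)
include C

theorem lam_aux {r : ℕ} (hb : ∀ Q, Cp G D y Q → LoG G M Y D r Q) {s : V} (hs : s ∈ M) :
    ∃ L, Clq G L ∧ ∃ E : Finset V, E.card ≤ r ∧
      ∀ u P x, Arm G M Y D y u P x → x ≠ s → Sees G s P → u ∈ L ∨ x ∈ E := by
  have key : ∀ {u P x u' P' x'}, Arm G M Y D y u P x → Arm G M Y D y u' P' x' → x ≠ s → x' ≠ s →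
      Sees G s P → Sees G s P' → Anti G P P' → G.Adj u u' := by
    intro u P x u' P' x' a a' n n' e e' i
    obtain ⟨c1, -, s1⟩ := a.cp e
    obtain ⟨c2, -, s2⟩ := a'.cp e'
    have w2 : ∀ z ∈ M, Sees G z P → Sees G z P' → z = s := fun z hz f f' =>
      C.w2 c1.cn c2.cn (a.sD.trans C.DO) (a'.sD.trans C.DO) i hz hs f f' e e'
    exact (C.t12 a a' (C.ind a a' (fun f => n (w2 x a.g.1 s1 (f ▸ s2)))
      (fun f => n' (w2 x' a'.g.1 f s2)) fun f => n (w2 x a.g.1 s1 f))).2.2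
  by_cases hk : Clq G {u | ∃ P x, Arm G M Y D y u P x ∧ x ≠ s ∧ Sees G s P}
  · exact ⟨_, hk, ∅, by simp, fun u P x a n e => Or.inl ⟨P, x, a, n, e⟩⟩
  simp only [Clq, not_forall] at hk
  obtain ⟨u1, ⟨P1, x1, a1, n1, e1⟩, u2, ⟨P2, x2, a2, n2, e2⟩, hne, hna⟩ := hk
  have t : Touch G P2 P1 := (not_anti.1 fun i => hna (key a1 a2 n1 n2 e1 e2 i)).symm
  have s21 := (a2.cp e2).1.sub (a1.cp e1).1 t
  obtain ⟨E, cE, hE⟩ := hb P1 (a1.cp e1).1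
  refine ⟨{u | ∃ P x, Arm G M Y D y u P x ∧ x ≠ s ∧ Sees G s P ∧ Anti G P1 P}, clq_common C.ehf hne hna
    ?_, E, cE, fun u P x a n e => ?_⟩
  · rintro u ⟨P, x, a, n, e, i⟩
    exact ⟨key a1 a n1 n e1 e i, key a2 a n2 n e2 e (i.mono s21 le_rfl)⟩
  · by_cases i : Anti G P1 P
    · exact Or.inl ⟨P, x, a, n, e, i⟩
    · exact Or.inr (hE x a.g ((a.cp e).2.2.mono ((a.cp e).1.sub (a1.cp e1).1 (not_anti.1 i).symm)))

theorem lam {r : ℕ} (hb : ∀ Q, Cp G D y Q → LoG G M Y D r Q) :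
    ∃ L, AlphaLe G L 3 ∧ ∃ E : Finset V, E.card ≤ 4 * r + 2 ∧
      ∀ u P x, Arm G M Y D y u P x → u ∈ L ∨ x ∈ E := by
  classical
  by_cases hk : Clq G {u | ∃ P x, Arm G M Y D y u P x}
  · exact ⟨_, (clq_alpha hk).mono le_rfl (by omega), ∅, by simp, fun u P x a => Or.inl ⟨P, x, a⟩⟩
  simp only [Clq, not_forall] at hk
  obtain ⟨u1, ⟨P1, x1, a1⟩, u2, ⟨P2, x2, a2⟩, hne, hna⟩ := hk
  obtain ⟨L1, k1, E1, c1, h1⟩ := C.lam_aux hb a1.g.1
  obtain ⟨L2, k2, E2, c2, h2⟩ := C.lam_aux hb a2.g.1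
  obtain ⟨E3, c3, h3⟩ := a1.lo hb
  obtain ⟨E4, c4, h4⟩ := a2.lo hb
  have k0 : Clq G {u | ∃ P x, Arm G M Y D y u P x ∧ Anti G (insert x1 P1) (insert x P) ∧
      Anti G (insert x2 P2) (insert x P)} := clq_common C.ehf hne hna (by
    rintro u ⟨P, x, a, i, i'⟩
    exact ⟨(C.t12 a1 a i).2.2, (C.t12 a2 a i').2.2⟩)
  refine ⟨_, alpha_union (alpha_union (clq_alpha k0) (clq_alpha k1)) (clq_alpha k2),
    {x1, x2} ∪ (E1 ∪ E2 ∪ (E3 ∪ E4)), ?_, fun u P x a => ?_⟩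
  · have := Finset.card_union_le {x1, x2} (E1 ∪ E2 ∪ (E3 ∪ E4))
    have := Finset.card_union_le (E1 ∪ E2) (E3 ∪ E4)
    have := Finset.card_union_le E1 E2
    have := Finset.card_union_le E3 E4
    have := Finset.card_le_two (a := x1) (b := x2)
    omega
  · by_contra hc
    simp only [Set.mem_union, Finset.mem_union, Finset.mem_insert, Finset.mem_singleton,
      not_or] at hc
    obtain ⟨⟨⟨n0, n1⟩, n2⟩, ⟨n3, n4⟩, ⟨n5, n6⟩, n7, n8⟩ := hc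
    exact n0 ⟨P, x, a,
      C.ind a1 a (Ne.symm n3) (fun e => n7 (h3 x a.g e)) fun e => (h1 u P x a n3 e).elim n1 n5,
      C.ind a2 a (Ne.symm n4) (fun e => n8 (h4 x a.g e)) fun e => (h2 u P x a n4 e).elim n2 n6⟩

theorem bdstar {r : ℕ} (hb : ∀ Q, Cp G D y Q → LoG G M Y D r Q) (hM : h + 2 * r + 1 ≤ M.card) :
    ∃ B : Finset V, B.card ≤ (2 * r + 1) * (r + 1) ∧
      Clq G {q | q ∈ Bd G U D ∧ ∃ u P x, Arm G M Y D y u P x ∧ x ∉ B ∧ Sees G q P} := by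
  classical
  obtain ⟨E, cE, hE⟩ := C.big
  obtain ⟨J, sJ, cJ⟩ := Finset.exists_subset_card_eq (s := M \ E) (n := 2 * r + 1) (by
    have := Finset.le_card_sdiff E M
    omega)
  have ex : ∀ j, ∃ (u : V) (P : Set V) (F : Finset V), j ∈ J → Arm G M Y D y u P j ∧ F.card ≤ r ∧
      ∀ w, Good G M Y D w → Sees G w P → w ∈ F := fun j => by
    by_cases hj : j ∈ J
    · obtain ⟨u, P, a⟩ := C.arm_ex (hE j (Finset.mem_sdiff.1 (sJ hj)).1 (Finset.mem_sdiff.1 (sJ hj)).2)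
      obtain ⟨F, h1, h2⟩ := a.lo hb
      exact ⟨u, P, F, fun _ => ⟨a, h1, h2⟩⟩
    · exact ⟨j, ∅, ∅, fun e => (hj e).elim⟩
  choose u P F hu using ex
  refine ⟨J.biUnion fun j => insert j (F j), ?_, ?_⟩
  · rw [← cJ]
    exact Finset.card_biUnion_le_card_mul _ _ _ fun j hj =>
      (Finset.card_insert_le _ _).trans (Nat.succ_le_succ (hu j hj).2.1)
  rintro q ⟨qB, v, Q, x, a, nx, e⟩ q' ⟨qB', v', Q', x', a', nx', e'⟩ hne
  by_contra hna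
  obtain ⟨F1, c1, h1⟩ := a.lo hb
  obtain ⟨F2, c2, h2⟩ := a'.lo hb
  obtain ⟨j, hj, nj⟩ := exists_out (E := J) (F := F1 ∪ F2) (by
    have := Finset.card_union_le F1 F2
    omega)
  rw [Finset.mem_union, not_or] at nj
  obtain ⟨b, -, hF⟩ := hu j hj
  have i : ∀ {v Q x}, Arm G M Y D y v Q x → x ∉ (J.biUnion fun j => insert j (F j)) →
      ¬ Sees G j Q → Anti G (insert x Q) (insert j (P j)) := fun a n s =>
    C.ind a b (fun f => n (Finset.mem_biUnion.2 ⟨j, hj, f ▸ Finset.mem_insert_self _ _⟩)) s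
      fun f => n (Finset.mem_biUnion.2 ⟨j, hj, Finset.mem_insert_of_mem (hF _ a.g f)⟩)
  have i1 := i a nx fun f => nj.1 (h1 j b.g f)
  have i2 := i a' nx' fun f => nj.2 (h2 j b.g f)
  obtain ⟨cY, sq, sq', -⟩ := C.two qB qB' hne
  have ou := C.DO b.vD
  exact C.ehf.theta hne hna (conn_singleton (u j)) cY
    ((a.cA.ins (cN_il (C.adj _ a.g.1))).un a'.cA
      (Touch.of_adj (Or.inl rfl) (Or.inl rfl) (C.adj _ a'.g.1))) (C.vY' b.vD)
    ((anti_ir (anti_ss ou.1 ou.2).symm (C.t12 a b i1).2.1).union_right (C.t12 a' b i2).2.1)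
    ((anti_ir C.aYc (C.aYA a.g a.sD)).union_right (C.aYA a'.g a'.sD))
    (cN_adj (C.t3 a b i1 qB e)) (cN_adj (C.t3 a' b i2 qB' e')) (Or.inr sq) (Or.inr sq')
    (cN_mono Set.subset_union_left (cN_ir (cN_ir (Or.inr e))))
    (cN_mono Set.subset_union_right (cN_ir (Or.inr e')))

/-- (B2) -/
theorem b2 {m : ℕ} (hb : ∀ Q, Cp G D y Q → LoG G M Y D h Q)
    (hM : m + (2 * h + 1) * (h + 1) + 5 * h + 3 ≤ M.card) : Split G c M m := by
  classical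
  obtain ⟨L, kL, E, cE, hE⟩ := C.lam hb
  obtain ⟨B, cB, kB⟩ := C.bdstar hb (by omega)
  refine ⟨{w₁}, _, C.w1_sub, by simp, alpha_union (clq_alpha kB) kL, fun X cX oX hT hK => ?_⟩
  rcases C.far cX oX (hT _ (by simp)) with hU | hL
  swap
  · exact hL.mi (by omega)
  have nK := fun q (hq : q ∈ X) => Set.disjoint_left.1 hK hq
  simp only [Set.mem_union, not_or] at nK
  obtain ⟨E', cE', hE'⟩ := C.big
  by_cases hs : ∃ Q, Cp G D y Q ∧ X ⊆ Q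
  · obtain ⟨Q, hQ, sQ⟩ := hs
    obtain ⟨F, cF, hF⟩ := hb Q hQ
    refine Lo.mi (r := h + h) ⟨E' ∪ F, (Finset.card_union_le _ _).trans (by omega),
      fun w hw e => ?_⟩ (by omega)
    by_cases a : w ∈ E'
    · exact Finset.mem_union_left _ a
    · exact Finset.mem_union_right _ (hF w (hE' w hw a) (e.mono sQ))
  obtain ⟨F, cF, hF⟩ := C.priv
  refine Lo.mi (r := (2 * h + 1) * (h + 1) + 5 * h + 3) ⟨E' ∪ F ∪ (B ∪ E), ?_, fun w hw e => ?_⟩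
    (by omega)
  · have := Finset.card_union_le (E' ∪ F) (B ∪ E)
    have := Finset.card_union_le E' F
    have := Finset.card_union_le B E
    omega
  by_contra hc
  simp only [Finset.mem_union, not_or] at hc
  have g := hE' w hw hc.1.1
  obtain ⟨p, pX, ep⟩ := e
  have pD := hF w g (C.nev w g) hc.1.2 p (hU pX) ep
  by_cases yp : G.Adj y p
  · exact (hE p ∅ w ⟨pD, yp, g, Or.inl ⟨rfl, ep.symm⟩⟩).elim (nK p pX).2 hc.2.2
  obtain ⟨hQ, pQ⟩ := cp_comp C.yB.2.1 pD yp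
  obtain ⟨q, q1, q2, q3⟩ := exit cX pX pQ fun s => hs ⟨_, hQ, s⟩
  by_cases qD : q ∈ D
  · exact (hE q _ w ⟨qD, (hQ.cl q qD q2).resolve_left q3, g, Or.inr ⟨hQ, q2, p, pQ, ep⟩⟩).elim
      (nK q q1).2 hc.2.2
  · obtain ⟨v, v1, v2, v3⟩ := C.cp_port hQ
    exact (nK q q1).1 ⟨⟨hU q1, qD, q2.mono hQ.sD⟩, v, _, w,
      ⟨v1, v2, g, Or.inr ⟨hQ, v3, p, pQ, ep⟩⟩, hc.2.1, q2⟩

end CB

/-- the bound of SPLIT -/
def nSplit (m : ℕ) : ℕ := 2 * m + (2 * (m + 3) + 1) * (m + 3 + 1) + 5 * (m + 3) + 3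

/-- (SPLIT) -/
theorem split [Finite V] {c : V} {M : Finset V} (C : Ctr G c M) {m : ℕ} (hM : nSplit m ≤ M.card) :
    Split G c M m := by
  unfold nSplit at hM
  rcases start C (m := m) (h := m + 3) (by omega) (by omega) with h | ⟨w₁, u₁, U, Y, D, P⟩
  · exact h
  by_cases he : ∃ l, Good G M Y D l ∧ ∃ y ∈ Bd G U D, G.Adj l y
  · obtain ⟨l, hl, y, hy, e⟩ := he
    exact P.caseA (by omega) (by omega) hl hy e
  obtain ⟨y, hy⟩ := P.bd_ne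
  have Q : CB G c M (m + 3) w₁ u₁ U Y D y := ⟨P, hy, fun w hw y' hy' e => he ⟨w, hw, y', hy', e⟩⟩
  by_cases hb : ∀ X, Cp G D y X → LoG G M Y D (m + 3) X
  · exact Q.b2 hb (by omega)
  · push Not at hb
    obtain ⟨X, h1, h2⟩ := hb
    exact Q.b1 h1 (by omega) h2

/-- SPLIT and SEE together -/
theorem split_apart [Finite V] {c : V} {M : Finset V} (C : Ctr G c M) {m : ℕ}
    (hM : nSplit (2 * m) + nSee m ≤ M.card) :
    ∃ (T : Finset V) (K : Set V), T ⊆ M ∧ T.card ≤ 2 ∧ AlphaLe G K 4 ∧ ∃ A ⊆ M, ∃ B ⊆ M,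
      m ≤ A.card ∧ m ≤ B.card ∧
        Apart G {v | v ∈ Out G c ∧ (∀ w ∈ T, ¬ G.Adj w v) ∧ v ∉ K} A B := by
  obtain ⟨T, K, h1, h2, h3, h4⟩ := split C (m := 2 * m) (by omega)
  exact ⟨T, K, h1, h2, h3, apart_of_mi C (fun v hv => hv.1) (by omega) fun Y cY sY =>
    h4 Y cY (fun v hv => (sY hv).1) (fun w hw ⟨v, hv, e⟩ => (sY hv).2.1 w hw e)
      (Set.disjoint_left.2 fun v hv => (sY hv).2.2)⟩

end Pool.Agent.Ehf.Star
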